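import Mathlib

/-!
# Hyperbolic regions: the decision regions of two sigmoids

Algebraic inequalities for the regions `(X - g) (Y - b) ≤ κ` of the positive quadrant.
-/

set_option autoImplicit false

namespace Pool.Agent.W945.Sig

/-- points outside of the region lie above and to the right of `(g, b)` -/
theorem pos_of_out {g b κ X Y : ℝ} (hκ : 0 < κ) (hgb : g * b < κ) (hX : 0 < X) (hY : 0 < Y)
    (h : κ < (X - g) * (Y - b)) : g < X ∧ b < Y := by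
  by_contra hcon
  have h1 : 0 < (X - g) * (Y - b) := hκ.trans h
  rcases pos_and_pos_or_neg_and_neg_of_mul_pos h1 with ⟨h2, h3⟩ | ⟨h2, h3⟩
  · exact hcon ⟨by linarith, by linarith⟩
  · have h4 : X < g := by linarith
    have h5 : Y < b := by linarith
    nlinarith

theorem out_mono {g b κ X Y X' Y' : ℝ} (hκ : 0 < κ) (hgb : g * b < κ) (hX : 0 < X) (hY : 0 < Y)
    (h : κ < (X - g) * (Y - b)) (hXX : X ≤ X') (hYY : Y ≤ Y') : κ < (X' - g) * (Y' - b) := by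
  obtain ⟨h1, h2⟩ := pos_of_out hκ hgb hX hY h
  nlinarith [mul_le_mul (sub_le_sub_right hXX g) (sub_le_sub_right hYY b) (by linarith)
    (by linarith)]

/-- Lemma P -/
theorem out_mul {g b κ X₁ Y₁ X₂ Y₂ : ℝ} (hg : 0 < 1 - g) (hb : 0 < 1 - b)
    (h0 : (1 - g) * (1 - b) ≤ κ)
    (hX₁ : g < X₁) (hY₁ : b < Y₁) (hX₂ : g < X₂) (hY₂ : b < Y₂)
    (h1 : κ < (X₁ - g) * (Y₁ - b)) (h2 : κ < (X₂ - g) * (Y₂ - b))
    (hgX : 0 ≤ -g * ((X₁ - 1) * (X₂ - 1))) (hbY : 0 ≤ -b * ((Y₁ - 1) * (Y₂ - 1))) :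
    κ < (X₁ * X₂ - g) * (Y₁ * Y₂ - b) := by
  by_contra hcon
  push Not at hcon
  have hκ : 0 < κ := lt_of_lt_of_le (mul_pos hg hb) h0
  have e1 : (X₁ - g) * (X₂ - g) ≤ (1 - g) * (X₁ * X₂ - g) := by nlinarith
  have e2 : (Y₁ - b) * (Y₂ - b) ≤ (1 - b) * (Y₁ * Y₂ - b) := by nlinarith
  have p1 : 0 < (X₁ - g) * (X₂ - g) := mul_pos (by linarith) (by linarith)
  have p2 : 0 < (Y₁ - b) * (Y₂ - b) := mul_pos (by linarith) (by linarith)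
  have e3 : κ * κ < ((X₁ - g) * (X₂ - g)) * ((Y₁ - b) * (Y₂ - b)) := by
    have := mul_lt_mul'' h1 h2 hκ.le hκ.le
    nlinarith
  have e4 : ((X₁ - g) * (X₂ - g)) * ((Y₁ - b) * (Y₂ - b)) ≤
      ((1 - g) * (X₁ * X₂ - g)) * ((1 - b) * (Y₁ * Y₂ - b)) :=
    mul_le_mul e1 e2 p2.le (p1.le.trans e1)
  have q1 : 0 < (1 - g) * (1 - b) := mul_pos hg hb
  have q2 : 0 < X₁ * X₂ - g := by
    by_contra h
    push Not at h
    have := mul_nonpos_of_nonneg_of_nonpos hg.le h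
    linarith
  have q3 : 0 < Y₁ * Y₂ - b := by
    by_contra h
    push Not at h
    have := mul_nonpos_of_nonneg_of_nonpos hb.le h
    linarith
  have e5 : ((1 - g) * (1 - b)) * ((X₁ * X₂ - g) * (Y₁ * Y₂ - b)) ≤ κ * κ :=
    mul_le_mul h0 hcon (mul_pos q2 q3).le hκ.le
  nlinarith

/-- the function whose sign decides -/
def G (α β γ δ X Y : ℝ) : ℝ := α + β * X + γ * Y + δ * (X * Y)

theorem G_step (α β γ δ X Y x y : ℝ) :
    G α β γ δ (X * x) (Y * y) - (x * y) * G α β γ δ X Y =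
      α * (1 - x * y) + β * X * (x * (1 - y)) + γ * Y * (y * (1 - x)) := by
  unfold G
  ring

/-- Lemma Q: nonnegative `β`, `γ` -/
theorem lemQ {α β γ δ x₁ y₁ x₂ y₂ x₃ y₃ : ℝ} (hβ : 0 ≤ β) (hγ : 0 ≤ γ)
    (hx₁ : 0 < x₁) (hy₁ : 0 < y₁) (hx₃ : 0 < x₃) (hy₃ : 0 < y₃)
    (hc : (1 < x₁ ∧ y₁ < 1 ∧ 1 < x₂ ∧ y₂ < 1) ∨ (x₁ < 1 ∧ 1 < y₁ ∧ x₂ < 1 ∧ 1 < y₂))
    (h3 : G α β γ δ x₃ y₃ < 0) (h13 : 0 ≤ G α β γ δ (x₃ * x₁) (y₃ * y₁))
    (h23 : 0 ≤ G α β γ δ (x₃ * x₂) (y₃ * y₂))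
    (h123 : G α β γ δ (x₃ * x₂ * x₁) (y₃ * y₂ * y₁) < 0) : False := by
  have hxy : 0 < x₁ * y₁ := mul_pos hx₁ hy₁
  have e1 := G_step α β γ δ x₃ y₃ x₁ y₁
  have e2 := G_step α β γ δ (x₃ * x₂) (y₃ * y₂) x₁ y₁
  have f1 : 0 < α * (1 - x₁ * y₁) + β * x₃ * (x₁ * (1 - y₁)) + γ * y₃ * (y₁ * (1 - x₁)) := by
    rw [← e1]
    nlinarith [mul_pos hxy (neg_pos.2 h3)]
  have f2 : α * (1 - x₁ * y₁) + β * (x₃ * x₂) * (x₁ * (1 - y₁)) +
      γ * (y₃ * y₂) * (y₁ * (1 - x₁)) < 0 := by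
    rw [← e2]
    nlinarith [mul_nonneg hxy.le h23]
  have f3 : 0 < (β * x₃ * x₁) * ((1 - y₁) * (1 - x₂)) + (γ * y₃ * y₁) * ((1 - x₁) * (1 - y₂)) := by
    nlinarith
  have c1 : 0 ≤ β * x₃ * x₁ := by positivity
  have c2 : 0 ≤ γ * y₃ * y₁ := by positivity
  rcases hc with ⟨a, b, c, d⟩ | ⟨a, b, c, d⟩
  · have g1 : (1 - y₁) * (1 - x₂) ≤ 0 :=
      mul_nonpos_of_nonneg_of_nonpos (by linarith) (by linarith)
    have g2 : (1 - x₁) * (1 - y₂) ≤ 0 :=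
      mul_nonpos_of_nonpos_of_nonneg (by linarith) (by linarith)
    have := mul_nonpos_of_nonneg_of_nonpos c1 g1
    have := mul_nonpos_of_nonneg_of_nonpos c2 g2
    linarith
  · have g1 : (1 - y₁) * (1 - x₂) ≤ 0 :=
      mul_nonpos_of_nonpos_of_nonneg (by linarith) (by linarith)
    have g2 : (1 - x₁) * (1 - y₂) ≤ 0 :=
      mul_nonpos_of_nonneg_of_nonpos (by linarith) (by linarith)
    have := mul_nonpos_of_nonneg_of_nonpos c1 g1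
    have := mul_nonpos_of_nonneg_of_nonpos c2 g2
    linarith

/-- Lemma R: `γ ≤ 0 ≤ β`, three steps to the right and down -/
theorem lemR {α β γ δ x₁ y₁ x₂ y₂ x₃ y₃ : ℝ} (hβ : 0 ≤ β) (hγ : γ ≤ 0)
    (hx₁ : 1 < x₁) (hy₁ : 0 < y₁) (hy₁' : y₁ < 1) (hx₂ : 1 < x₂) (hy₂ : 0 < y₂) (hy₂' : y₂ < 1)
    (hx₃ : 1 < x₃) (hy₃ : 0 < y₃) (hy₃' : y₃ < 1)
    (h0 : 0 ≤ G α β γ δ 1 1) (h2 : G α β γ δ x₂ y₂ < 0) (h3 : G α β γ δ x₃ y₃ < 0)
    (h13 : 0 ≤ G α β γ δ (x₁ * x₃) (y₁ * y₃)) (h23 : 0 ≤ G α β γ δ (x₂ * x₃) (y₂ * y₃))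
    (h123 : G α β γ δ (x₁ * x₂ * x₃) (y₁ * y₂ * y₃) < 0) : False := by
  set c := -γ with hc
  have hc0 : 0 ≤ c := by linarith
  have p1 : 0 < x₁ * y₁ := by positivity
  have p2 : 0 < x₂ * y₂ := by positivity
  have p3 : 0 < x₃ * y₃ := by positivity
  -- the steps
  have s1 := G_step α β γ δ x₃ y₃ x₁ y₁        -- G(r1r3) - z1 G(r3) > 0
  have s2 := G_step α β γ δ (x₂ * x₃) (y₂ * y₃) x₁ y₁  -- < 0
  have s3 := G_step α β γ δ 1 1 x₃ y₃   -- < 0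
  have s4 := G_step α β γ δ x₂ y₂ x₃ y₃   -- > 0
  have s5 := G_step α β γ δ 1 1 x₂ y₂   -- < 0
  have s6 := G_step α β γ δ x₃ y₃ x₂ y₂   -- > 0
  have s7 := G_step α β γ δ (x₁ * x₃) (y₁ * y₃) x₂ y₂   -- < 0
  have t1 : 0 < α * (1 - x₁ * y₁) + β * x₃ * (x₁ * (1 - y₁)) + γ * y₃ * (y₁ * (1 - x₁)) := by
    rw [← s1, mul_comm x₃ x₁, mul_comm y₃ y₁]
    have hm := mul_pos p1 (neg_pos.2 h3)
    linarith
  have t2 : α * (1 - x₁ * y₁) + β * (x₂ * x₃) * (x₁ * (1 - y₁)) +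
      γ * (y₂ * y₃) * (y₁ * (1 - x₁)) < 0 := by
    rw [← s2, show x₂ * x₃ * x₁ = x₁ * x₂ * x₃ by ring, show y₂ * y₃ * y₁ = y₁ * y₂ * y₃ by ring]
    have hm := mul_nonneg p1.le h23
    linarith
  have t3 : α * (1 - x₃ * y₃) + β * 1 * (x₃ * (1 - y₃)) + γ * 1 * (y₃ * (1 - x₃)) < 0 := by
    rw [← s3, one_mul, one_mul]
    have hm := mul_nonneg p3.le h0
    linarith
  have t4 : 0 < α * (1 - x₃ * y₃) + β * x₂ * (x₃ * (1 - y₃)) + γ * y₂ * (y₃ * (1 - x₃)) := by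
    rw [← s4]
    have hm := mul_pos p3 (neg_pos.2 h2)
    linarith
  have t5 : α * (1 - x₂ * y₂) + β * 1 * (x₂ * (1 - y₂)) + γ * 1 * (y₂ * (1 - x₂)) < 0 := by
    rw [← s5, one_mul, one_mul]
    have hm := mul_nonneg p2.le h0
    linarith
  have t6 : 0 < α * (1 - x₂ * y₂) + β * x₃ * (x₂ * (1 - y₂)) + γ * y₃ * (y₂ * (1 - x₂)) := by
    rw [← s6, mul_comm x₃ x₂, mul_comm y₃ y₂]
    have hm := mul_pos p2 (neg_pos.2 h3)
    linarith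
  have t7 : α * (1 - x₂ * y₂) + β * (x₁ * x₃) * (x₂ * (1 - y₂)) +
      γ * (y₁ * y₃) * (y₂ * (1 - x₂)) < 0 := by
    rw [← s7, show x₁ * x₃ * x₂ = x₁ * x₂ * x₃ by ring, show y₁ * y₃ * y₂ = y₁ * y₂ * y₃ by ring]
    have hm := mul_nonneg p2.le h13
    linarith
  have hγc : γ = -c := by rw [hc]; ring
  rw [hγc] at t1 t2 t3 t4 t5 t6 t7
  -- (b) β x1 (1-y1) x3 (x2-1) < c y1 (x1-1) y3 (1-y2)
  have hb : β * (x₁ * x₃ * ((1 - y₁) * (x₂ - 1))) < c * (y₁ * y₃ * ((x₁ - 1) * (1 - y₂))) := by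
    linarith
  -- (f) β x3 (1-y3) (x2-1) > c y3 (x3-1) (1-y2)
  have hf : c * (y₃ * ((x₃ - 1) * (1 - y₂))) < β * (x₃ * ((1 - y₃) * (x₂ - 1))) := by
    linarith
  -- (c) β x2 (1-y2) (x3-1) > c y2 (x2-1) (1-y3)
  have hcc : c * (y₂ * ((x₂ - 1) * (1 - y₃))) < β * (x₂ * ((1 - y₂) * (x₃ - 1))) := by
    linarith
  -- (d) β x2 (1-y2) x3 (x1-1) < c y2 (x2-1) y3 (1-y1)
  have hd : β * (x₂ * x₃ * ((1 - y₂) * (x₁ - 1))) < c * (y₂ * y₃ * ((x₂ - 1) * (1 - y₁))) := by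
    linarith
  have a1 : 0 < x₁ - 1 := by linarith
  have a2 : 0 < x₂ - 1 := by linarith
  have a3 : 0 < x₃ - 1 := by linarith
  have b1 : 0 < 1 - y₁ := by linarith
  have b2 : 0 < 1 - y₂ := by linarith
  have b3 : 0 < 1 - y₃ := by linarith
  have hx1 : 0 < x₁ := by linarith
  have hx2 : 0 < x₂ := by linarith
  have hx3 : 0 < x₃ := by linarith
  have hcpos : 0 < c := by
    rcases hc0.lt_or_eq with h | h
    · exact h
    · rw [← h] at hb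
      have : 0 ≤ β * (x₁ * x₃ * ((1 - y₁) * (x₂ - 1))) := by positivity
      linarith
  -- (g): x1 (1-y1) (x3-1) < y1 (x1-1) (1-y3)
  have hg : x₁ * ((1 - y₁) * (x₃ - 1)) < y₁ * ((x₁ - 1) * (1 - y₃)) := by
    have e1 : c * y₃ * (1 - y₂) * (x₁ * ((1 - y₁) * (x₃ - 1))) <
        c * y₃ * (1 - y₂) * (y₁ * ((x₁ - 1) * (1 - y₃))) := by
      have m1 := mul_lt_mul_of_pos_right hf (mul_pos hx1 b1)
      have m2 := mul_lt_mul_of_pos_right hb b3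
      linarith
    exact lt_of_mul_lt_mul_left e1 (by positivity)
  have hh : x₃ * ((1 - y₃) * (x₁ - 1)) < y₃ * ((1 - y₁) * (x₃ - 1)) := by
    have e1 : c * y₂ * (x₂ - 1) * (x₃ * ((1 - y₃) * (x₁ - 1))) <
        c * y₂ * (x₂ - 1) * (y₃ * ((1 - y₁) * (x₃ - 1))) := by
      have m1 := mul_lt_mul_of_pos_right hcc (mul_pos hx3 a1)
      have m2 := mul_lt_mul_of_pos_right hd a3
      linarith
    exact lt_of_mul_lt_mul_left e1 (by positivity)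
  -- contradiction
  have k1 : (1 - y₁) * (x₃ - 1) < (x₁ - 1) * (1 - y₃) := by
    have u1 : 1 * ((1 - y₁) * (x₃ - 1)) ≤ x₁ * ((1 - y₁) * (x₃ - 1)) :=
      mul_le_mul_of_nonneg_right hx₁.le (by positivity)
    have u2 : y₁ * ((x₁ - 1) * (1 - y₃)) ≤ 1 * ((x₁ - 1) * (1 - y₃)) :=
      mul_le_mul_of_nonneg_right hy₁'.le (by positivity)
    linarith
  have k2 : (1 - y₃) * (x₁ - 1) < (1 - y₁) * (x₃ - 1) := by
    have u1 : 1 * ((1 - y₃) * (x₁ - 1)) ≤ x₃ * ((1 - y₃) * (x₁ - 1)) :=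
      mul_le_mul_of_nonneg_right hx₃.le (by positivity)
    have u2 : y₃ * ((1 - y₁) * (x₃ - 1)) ≤ 1 * ((1 - y₁) * (x₃ - 1)) :=
      mul_le_mul_of_nonneg_right hy₃'.le (by positivity)
    linarith
  linarith

/-- the key identity -/
theorem key_identity (g b c X P : ℝ) :
    (b * X + c) * (b * P + c) * ((1 - g) * (X * P - g)) -
      (b + c) * (b * (X * P) + c) * ((X - g) * (P - g)) =
      (1 - X) * (1 - P) * ((c + b * g) * (-g * c - b * (X * P))) := by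
  ring

end Pool.Agent.W945.Sig
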