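import Pool.Agent.W945.Sig.Alg

/-!
# The combinatorics of one hyperbolic region
-/

set_option autoImplicit false

namespace Pool.Agent.W945.Sig

/-- common computation -/
theorem chain {g b κ X Y P Q : ℝ} (hg : g ≤ 0) (hb : 0 ≤ b) (hκ : 0 < κ)
    (h0 : (1 - g) * (1 - b) ≤ κ) (hX : 0 < X) (hP : 0 < P)
    (h1 : κ < (X - g) * (Y - b)) (h2 : κ < (P - g) * (Q - b))
    (h3 : (X * P - g) * (Y * Q - b) ≤ κ) :
    (1 - X) * (1 - P) * (-g * (κ - b * g) - b * (X * P)) < 0 := by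
  have hXP : 0 < X * P := mul_pos hX hP
  have mX : 0 < X - g := by linarith
  have mP : 0 < P - g := by linarith
  have m1 : 0 < 1 - g := by linarith
  have mXP : 0 < X * P - g := by linarith
  set c := κ - b * g with hc
  have nX : b * X + c < (X - g) * Y := by rw [hc]; linarith
  have nP : b * P + c < (P - g) * Q := by rw [hc]; linarith
  have nXP : (X * P - g) * (Y * Q) ≤ b * (X * P) + c := by rw [hc]; linarith
  have n1 : 1 - g ≤ b + c := by rw [hc]; linarith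
  have bg : 0 ≤ -(b * g) := by nlinarith
  have c0 : 0 < c := by rw [hc]; linarith
  have pX : 0 < b * X + c := by positivity
  have pP : 0 < b * P + c := by positivity
  have pXP : 0 < b * (X * P) + c := by positivity
  have e1 : (b * X + c) * (b * P + c) < ((X - g) * Y) * ((P - g) * Q) :=
    mul_lt_mul'' nX nP pX.le pP.le
  have e2 : (b * X + c) * (b * P + c) * ((1 - g) * (X * P - g)) <
      ((X - g) * Y) * ((P - g) * Q) * ((1 - g) * (X * P - g)) :=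
    mul_lt_mul_of_pos_right e1 (mul_pos m1 mXP)
  have e3 : ((X - g) * Y) * ((P - g) * Q) * ((1 - g) * (X * P - g)) =
      ((1 - g) * ((X * P - g) * (Y * Q))) * ((X - g) * (P - g)) := by ring
  have pos4 : 0 < (X * P - g) * (Y * Q) := by
    have : 0 < Y := by
      by_contra h
      push Not at h
      have := mul_nonpos_of_nonneg_of_nonpos mX.le h
      linarith
    have : 0 < Q := by
      by_contra h
      push Not at h
      have := mul_nonpos_of_nonneg_of_nonpos mP.le h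
      linarith
    positivity
  have e4 : (1 - g) * ((X * P - g) * (Y * Q)) ≤ (b + c) * (b * (X * P) + c) :=
    mul_le_mul n1 nXP pos4.le (by linarith)
  have e5 : ((1 - g) * ((X * P - g) * (Y * Q))) * ((X - g) * (P - g)) ≤
      ((b + c) * (b * (X * P) + c)) * ((X - g) * (P - g)) :=
    mul_le_mul_of_nonneg_right e4 (mul_pos mX mP).le
  have e6 := key_identity g b c X P
  have e7 : c + b * g = κ := by rw [hc]; ring
  rw [e7] at e6
  have e8 : (1 - X) * (1 - P) * (κ * (-g * c - b * (X * P))) < 0 := by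
    rw [← e6]
    linarith
  have e9 : κ * ((1 - X) * (1 - P) * (-g * c - b * (X * P))) < 0 := by
    have : (1 - X) * (1 - P) * (κ * (-g * c - b * (X * P))) =
      κ * ((1 - X) * (1 - P) * (-g * c - b * (X * P))) := by ring
    rwa [this] at e8
  by_contra hcon
  push Not at hcon
  have := mul_nonneg hκ.le hcon
  linarith

/-- right and down -/
def Rt (p : ℝ × ℝ) : Prop := 1 < p.1 ∧ p.2 < 1

/-- left and up -/
def Up (p : ℝ × ℝ) : Prop := p.1 < 1 ∧ 1 < p.2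

/-- both coordinates are positive -/
def Pos (p : ℝ × ℝ) : Prop := 0 < p.1 ∧ 0 < p.2

theorem Pos.mul {p q : ℝ × ℝ} (hp : Pos p) (hq : Pos q) : Pos (p * q) :=
  ⟨mul_pos hp.1 hq.1, mul_pos hp.2 hq.2⟩

theorem Pos.one : Pos (1 : ℝ × ℝ) := ⟨one_pos, one_pos⟩

/-- the region -/
def Dc (g b κ : ℝ) (p : ℝ × ℝ) : Prop := (p.1 - g) * (p.2 - b) ≤ κ

/-- the labels of the products of four vectors of two kinds -/
structure Quad (D : ℝ × ℝ → Prop) (p q r s : ℝ × ℝ) : Prop where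
  pp : Pos p
  pq : Pos q
  pr : Pos r
  ps : Pos s
  d1 : D 1
  np : ¬ D p
  nq : ¬ D q
  nr : ¬ D r
  ns : ¬ D s
  dpr : D (p * r)
  dps : D (p * s)
  dqr : D (q * r)
  dqs : D (q * s)
  npqr : ¬ D (p * q * r)
  npqs : ¬ D (p * q * s)
  nprs : ¬ D (p * r * s)
  nqrs : ¬ D (q * r * s)
  dpqrs : D (p * q * r * s)

theorem Quad.symm {D : ℝ × ℝ → Prop} {p q r s : ℝ × ℝ} (h : Quad D p q r s) :
    Quad D r s p q where
  pp := h.pr
  pq := h.ps
  pr := h.pp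
  ps := h.pq
  d1 := h.d1
  np := h.nr
  nq := h.ns
  nr := h.np
  ns := h.nq
  dpr := by rw [mul_comm]; exact h.dpr
  dps := by rw [mul_comm]; exact h.dqr
  dqr := by rw [mul_comm]; exact h.dps
  dqs := by rw [mul_comm]; exact h.dqs
  npqr := by rw [show r * s * p = p * r * s by ring]; exact h.nprs
  npqs := by rw [show r * s * q = q * r * s by ring]; exact h.nqrs
  nprs := by rw [show r * p * q = p * q * r by ring]; exact h.npqr
  nqrs := by rw [show s * p * q = p * q * s by ring]; exact h.npqs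
  dpqrs := by rw [show r * s * p * q = p * q * r * s by ring]; exact h.dpqrs

section canonical

variable {g b κ : ℝ}

theorem out_iff {p : ℝ × ℝ} : ¬ Dc g b κ p ↔ κ < (p.1 - g) * (p.2 - b) := by
  unfold Dc
  exact not_le

theorem Dc_one : Dc g b κ 1 ↔ (1 - g) * (1 - b) ≤ κ := Iff.rfl

theorem class_of (hκ : 0 < κ) (hgb : g * b < κ) {p q : ℝ × ℝ} (hp : Pos p) (hq : Pos q)
    (h1 : Dc g b κ 1) (hnp : ¬ Dc g b κ p) (hnq : ¬ Dc g b κ q) (hpq : Dc g b κ (p * q)) :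
    Rt p ∨ Up p := by
  rw [out_iff] at hnp hnq
  have c1 : ¬ (p.1 ≤ 1 ∧ p.2 ≤ 1) := by
    rintro ⟨h2, h3⟩
    have := out_mono hκ hgb hp.1 hp.2 hnp h2 h3
    exact absurd h1 (not_le.2 this)
  have c2 : ¬ (1 ≤ p.1 ∧ 1 ≤ p.2) := by
    rintro ⟨h2, h3⟩
    have := out_mono (X' := p.1 * q.1) (Y' := p.2 * q.2) hκ hgb hq.1 hq.2 hnq
      (by nlinarith [hq.1]) (by nlinarith [hq.2])
    exact absurd hpq (not_le.2 this)
  unfold Rt Up
  rcases lt_trichotomy p.1 1 with h | h | h <;> rcases lt_trichotomy p.2 1 with h' | h' | h'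
  · exact absurd ⟨h.le, h'.le⟩ c1
  · exact absurd ⟨h.le, h'.le⟩ c1
  · exact Or.inr ⟨h, h'⟩
  · exact absurd ⟨h.le, h'.le⟩ c1
  · exact absurd ⟨h.le, h'.le⟩ c1
  · exact absurd ⟨h.ge, h'.le⟩ c2
  · exact Or.inl ⟨h, h'⟩
  · exact absurd ⟨h.le, h'.ge⟩ c2
  · exact absurd ⟨h.le, h'.le⟩ c2

/-- both `g` and `b` nonpositive: members of one class cannot cancel -/
theorem same_mul (hg : g ≤ 0) (hb : b ≤ 0) (hκ : 0 < κ) (hgb : g * b < κ) {p q : ℝ × ℝ}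
    (hp : Pos p) (hq : Pos q) (h1 : Dc g b κ 1) (hnp : ¬ Dc g b κ p) (hnq : ¬ Dc g b κ q)
    (hc : (Rt p ∧ Rt q) ∨ (Up p ∧ Up q)) : ¬ Dc g b κ (p * q) := by
  rw [out_iff] at hnp hnq ⊢
  obtain ⟨p1, p2⟩ := pos_of_out hκ hgb hp.1 hp.2 hnp
  obtain ⟨q1, q2⟩ := pos_of_out hκ hgb hq.1 hq.2 hnq
  refine out_mul (by linarith) (by linarith) h1 p1 p2 q1 q2 hnp hnq ?_ ?_
  · apply mul_nonneg (by linarith)
    rcases hc with ⟨h2, h3⟩ | ⟨h2, h3⟩
    · exact mul_nonneg (by linarith [h2.1]) (by linarith [h3.1])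
    · exact mul_nonneg_of_nonpos_of_nonpos (by linarith [h2.1]) (by linarith [h3.1])
  · apply mul_nonneg (by linarith)
    rcases hc with ⟨h2, h3⟩ | ⟨h2, h3⟩
    · exact mul_nonneg_of_nonpos_of_nonpos (by linarith [h2.2]) (by linarith [h3.2])
    · exact mul_nonneg (by linarith [h2.2]) (by linarith [h3.2])

/-- both `g` and `b` nonnegative: members of different classes cannot cancel -/
theorem opp_mul (hg : 0 ≤ g) (hb : 0 ≤ b) (hκ : 0 < κ) (hgb : g * b < κ) {p q : ℝ × ℝ}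
    (hp : Pos p) (hq : Pos q) (h1 : Dc g b κ 1) (hnp : ¬ Dc g b κ p) (hnq : ¬ Dc g b κ q)
    (hc : Rt p ∧ Up q) : ¬ Dc g b κ (p * q) := by
  rw [out_iff] at hnp hnq ⊢
  obtain ⟨p1, p2⟩ := pos_of_out hκ hgb hp.1 hp.2 hnp
  obtain ⟨q1, q2⟩ := pos_of_out hκ hgb hq.1 hq.2 hnq
  obtain ⟨h2, h3⟩ := hc
  refine out_mul (by linarith [h3.1]) (by linarith [h2.2]) h1 p1 p2 q1 q2 hnp hnq ?_ ?_
  · have : (p.1 - 1) * (q.1 - 1) ≤ 0 :=
      mul_nonpos_of_nonneg_of_nonpos (by linarith [h2.1]) (by linarith [h3.1])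
    nlinarith
  · have : (p.2 - 1) * (q.2 - 1) ≤ 0 :=
      mul_nonpos_of_nonpos_of_nonneg (by linarith [h2.2]) (by linarith [h3.2])
    nlinarith

theorem Dc_iff_G {p : ℝ × ℝ} : Dc g b κ p ↔ 0 ≤ G (κ - g * b) b g (-1) p.1 p.2 := by
  unfold Dc G
  constructor <;> intro h <;> nlinarith

theorem notDc_iff_G {p : ℝ × ℝ} : ¬ Dc g b κ p ↔ G (κ - g * b) b g (-1) p.1 p.2 < 0 := by
  rw [Dc_iff_G, not_le]

/-- both nonnegative: contradiction -/
theorem quad_nonneg (hg : 0 ≤ g) (hb : 0 ≤ b) (hκ : 0 < κ) (hgb : g * b < κ)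
    {p q r s : ℝ × ℝ} (h : Quad (Dc g b κ) p q r s) : False := by
  have cp := class_of hκ hgb h.pp h.pr h.d1 h.np h.nr h.dpr
  have cq := class_of hκ hgb h.pq h.pr h.d1 h.nq h.nr h.dqr
  have cr := class_of hκ hgb h.pr h.pp h.d1 h.nr h.np (by rw [mul_comm]; exact h.dpr)
  have key : (Rt p ∧ Rt q) ∨ (Up p ∧ Up q) := by
    rcases cp with cp | cp <;> rcases cq with cq | cq
    · exact Or.inl ⟨cp, cq⟩
    · exfalso
      rcases cr with cr | cr
      · exact opp_mul hg hb hκ hgb h.pr h.pq h.d1 h.nr h.nq ⟨cr, cq⟩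
          (by rw [mul_comm]; exact h.dqr)
      · exact opp_mul hg hb hκ hgb h.pp h.pr h.d1 h.np h.nr ⟨cp, cr⟩ h.dpr
    · exfalso
      rcases cr with cr | cr
      · exact opp_mul hg hb hκ hgb h.pr h.pp h.d1 h.nr h.np ⟨cr, cp⟩
          (by rw [mul_comm]; exact h.dpr)
      · exact opp_mul hg hb hκ hgb h.pq h.pr h.d1 h.nq h.nr ⟨cq, cr⟩ h.dqr
    · exact Or.inr ⟨cp, cq⟩
  have h3 := notDc_iff_G.1 h.nr
  have h13 := Dc_iff_G.1 h.dpr
  have h23 := Dc_iff_G.1 h.dqr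
  have h123 := notDc_iff_G.1 h.npqr
  refine lemQ (x₁ := p.1) (y₁ := p.2) (x₂ := q.1) (y₂ := q.2) (x₃ := r.1) (y₃ := r.2) hb hg
    h.pp.1 h.pp.2 h.pr.1 h.pr.2 ?_ h3 ?_ ?_ ?_
  · rcases key with ⟨k1, k2⟩ | ⟨k1, k2⟩
    · exact Or.inl ⟨k1.1, k1.2, k2.1, k2.2⟩
    · exact Or.inr ⟨k1.1, k1.2, k2.1, k2.2⟩
  · rw [mul_comm r.1, mul_comm r.2]; exact h13
  · rw [mul_comm r.1, mul_comm r.2]; exact h23
  · rw [show r.1 * q.1 * p.1 = p.1 * q.1 * r.1 by ring,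
      show r.2 * q.2 * p.2 = p.2 * q.2 * r.2 by ring]
    exact h123

/-- `g ≤ 0 ≤ b`: no three members of one class, two of one kind and one of the other kind -/
theorem quad_mixed (hg : g ≤ 0) (hb : 0 ≤ b)
    {p q r s : ℝ × ℝ} (h : Quad (Dc g b κ) p q r s) :
    ¬ (Rt p ∧ Rt q ∧ Rt r) ∧ ¬ (Up p ∧ Up q ∧ Up r) := by
  constructor
  · rintro ⟨cp, cq, cr⟩
    exact lemR (x₁ := p.1) (y₁ := p.2) (x₂ := q.1) (y₂ := q.2) (x₃ := r.1) (y₃ := r.2)
      (α := κ - g * b) (δ := -1) hb hg cp.1 h.pp.2 cp.2 cq.1 h.pq.2 cq.2 cr.1 h.pr.2 cr.2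
      (Dc_iff_G.1 h.d1) (notDc_iff_G.1 h.nq) (notDc_iff_G.1 h.nr) (Dc_iff_G.1 h.dpr)
      (Dc_iff_G.1 h.dqr) (notDc_iff_G.1 h.npqr)
  · rintro ⟨cp, cq, cr⟩
    obtain ⟨p1, p2⟩ := h.pp
    obtain ⟨q1, q2⟩ := h.pq
    obtain ⟨r1, r2⟩ := h.pr
    obtain ⟨s1, s2⟩ := h.ps
    set B1 := p.1 * q.1 * r.1 * s.1 with hB1
    set B2 := p.2 * q.2 * r.2 * s.2 with hB2
    have hB1p : 0 < B1 := by positivity
    have hB2p : 0 < B2 := by positivity
    have base : ∀ X Y : ℝ, G (κ - g * b) (b * B1) (g * B2) (-(B1 * B2)) X Y =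
        G (κ - g * b) b g (-1) (B1 * X) (B2 * Y) := by
      intro X Y
      unfold G
      ring
    refine lemR (x₁ := p.1⁻¹) (y₁ := p.2⁻¹) (x₂ := q.1⁻¹) (y₂ := q.2⁻¹) (x₃ := r.1⁻¹)
      (y₃ := r.2⁻¹) (α := κ - g * b) (β := b * B1) (γ := g * B2) (δ := -(B1 * B2))
      (by positivity) (mul_nonpos_of_nonpos_of_nonneg hg hB2p.le)
      ((one_lt_inv₀ p1).2 cp.1) (inv_pos.2 p2) (inv_lt_one_of_one_lt₀ cp.2)
      ((one_lt_inv₀ q1).2 cq.1) (inv_pos.2 q2) (inv_lt_one_of_one_lt₀ cq.2)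
      ((one_lt_inv₀ r1).2 cr.1) (inv_pos.2 r2) (inv_lt_one_of_one_lt₀ cr.2) ?_ ?_ ?_ ?_ ?_ ?_
    · rw [base, mul_one, mul_one]
      exact Dc_iff_G.1 h.dpqrs
    · rw [base, show B1 * q.1⁻¹ = p.1 * r.1 * s.1 by rw [hB1]; field_simp,
        show B2 * q.2⁻¹ = p.2 * r.2 * s.2 by rw [hB2]; field_simp]
      exact notDc_iff_G.1 h.nprs
    · rw [base, show B1 * r.1⁻¹ = p.1 * q.1 * s.1 by rw [hB1]; field_simp,
        show B2 * r.2⁻¹ = p.2 * q.2 * s.2 by rw [hB2]; field_simp]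
      exact notDc_iff_G.1 h.npqs
    · rw [base, show B1 * (p.1⁻¹ * r.1⁻¹) = q.1 * s.1 by rw [hB1]; field_simp,
        show B2 * (p.2⁻¹ * r.2⁻¹) = q.2 * s.2 by rw [hB2]; field_simp]
      exact Dc_iff_G.1 h.dqs
    · rw [base, show B1 * (q.1⁻¹ * r.1⁻¹) = p.1 * s.1 by rw [hB1]; field_simp,
        show B2 * (q.2⁻¹ * r.2⁻¹) = p.2 * s.2 by rw [hB2]; field_simp]
      exact Dc_iff_G.1 h.dps
    · rw [base, show B1 * (p.1⁻¹ * q.1⁻¹ * r.1⁻¹) = s.1 by rw [hB1]; field_simp,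
        show B2 * (p.2⁻¹ * q.2⁻¹ * r.2⁻¹) = s.2 by rw [hB2]; field_simp]
      exact notDc_iff_G.1 h.ns

end canonical

end Pool.Agent.W945.Sig
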