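import Pool.Agent.W945.Sig.Canon

/-!
# From labels to a not-all-equal colouring
-/

set_option autoImplicit false

namespace Pool.Agent.W945.Sig

/-- balanced sets of inputs of a variable: as many inputs of the first kind (`0, 2, 3`) as of the
second kind (`1, 4, 5`) -/
def bal (s : Finset (Fin 6)) : Prop := (s ∩ {0, 2, 3}).card = (s ∩ {1, 4, 5}).card

instance : DecidablePred bal := fun s => by unfold bal; infer_instance

/-- four inputs, two of each kind, not both `0` and `1` -/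
def okq (i i' j j' : Fin 6) : Prop :=
  i ≠ i' ∧ j ≠ j' ∧ i ∈ ({0, 2, 3} : Finset (Fin 6)) ∧ i' ∈ ({0, 2, 3} : Finset (Fin 6)) ∧
    j ∈ ({1, 4, 5} : Finset (Fin 6)) ∧ j' ∈ ({1, 4, 5} : Finset (Fin 6)) ∧
    ¬ ((i = 0 ∨ i' = 0) ∧ (j = 1 ∨ j' = 1))

instance (i i' j j' : Fin 6) : Decidable (okq i i' j j') := by unfold okq; infer_instance

/-- not both `0` and `1` -/
def sep (s : Finset (Fin 6)) : Prop := ¬ (0 ∈ s ∧ 1 ∈ s)

instance : DecidablePred sep := fun s => by unfold sep; infer_instance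

set_option maxRecDepth 20000 in
theorem okq_facts : ∀ i i' j j' : Fin 6, okq i i' j j' →
    (i ≠ i' ∧ i ≠ j ∧ i ≠ j' ∧ i' ≠ j ∧ i' ≠ j' ∧ j ≠ j') ∧
    (¬ bal {i} ∧ ¬ bal {i'} ∧ ¬ bal {j} ∧ ¬ bal {j'}) ∧
    (bal {i, j} ∧ bal {i, j'} ∧ bal {i', j} ∧ bal {i', j'}) ∧
    (¬ bal {i, i', j} ∧ ¬ bal {i, i', j'} ∧ ¬ bal {i, j, j'} ∧ ¬ bal {i', j, j'}) ∧
    bal {i, i', j, j'} ∧
    (sep {i, j} ∧ sep {i, j'} ∧ sep {i', j} ∧ sep {i', j'}) ∧
    (sep {i, i', j} ∧ sep {i, i', j'} ∧ sep {i, j, j'} ∧ sep {i', j, j'}) ∧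
    sep {i, i', j, j'} := by
  decide

theorem bool_fact (c0 c1 c2 c3 c4 c5 : Bool)
    (h1 : ¬ (c0 = c2 ∧ c0 = c4) ∧ ¬ (c4 = c5 ∧ c4 = c0))
    (h2 : ¬ (c0 = c3 ∧ c0 = c4) ∧ ¬ (c4 = c5 ∧ c4 = c0))
    (h3 : ¬ (c2 = c3 ∧ c2 = c4) ∧ ¬ (c4 = c5 ∧ c4 = c2))
    (h4 : ¬ (c2 = c3 ∧ c2 = c1) ∧ ¬ (c1 = c4 ∧ c1 = c2))
    (h5 : ¬ (c2 = c3 ∧ c2 = c1) ∧ ¬ (c1 = c5 ∧ c1 = c2))
    (h6 : ¬ (c2 = c3 ∧ c2 = c4) ∧ ¬ (c4 = c1 ∧ c4 = c2))
    (h7 : ¬ (c3 = c2 ∧ c3 = c1) ∧ ¬ (c1 = c4 ∧ c1 = c3))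
    (h8 : ¬ (c3 = c2 ∧ c3 = c1) ∧ ¬ (c1 = c5 ∧ c1 = c3))
    (h9 : ¬ (c3 = c2 ∧ c3 = c4) ∧ ¬ (c4 = c5 ∧ c4 = c3))
    (h10 : ¬ (c2 = c3 ∧ c2 = c5) ∧ ¬ (c5 = c4 ∧ c5 = c2)) :
    c0 ≠ c1 := by
  cases c0 <;> cases c1 <;> cases c2 <;> cases c3 <;> cases c4 <;> cases c5 <;> simp_all

theorem quad_of_gad {D : ℝ × ℝ → Prop} {z : Fin 6 → ℝ × ℝ} (pos : ∀ q, Pos (z q))
    (gad : ∀ s : Finset (Fin 6), ¬ (0 ∈ s ∧ 1 ∈ s) → (D (∏ q ∈ s, z q) ↔ bal s))
    (i i' j j' : Fin 6) (h : okq i i' j j') : Quad D (z i) (z i') (z j) (z j') := by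
  have one : ∀ i : Fin 6, D (z i) ↔ bal {i} := by
    intro i
    have := gad {i} (by revert i; decide)
    rwa [Finset.prod_singleton] at this
  have two : ∀ i j : Fin 6, i ≠ j → ¬ (0 ∈ ({i, j} : Finset (Fin 6)) ∧ 1 ∈ ({i, j} : Finset _)) →
      (D (z i * z j) ↔ bal {i, j}) := by
    intro i j hij h01
    have := gad {i, j} h01
    rwa [Finset.prod_pair hij] at this
  have three : ∀ i j k : Fin 6, i ≠ j → i ≠ k → j ≠ k →
      ¬ (0 ∈ ({i, j, k} : Finset (Fin 6)) ∧ 1 ∈ ({i, j, k} : Finset _)) →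
      (D (z i * z j * z k) ↔ bal {i, j, k}) := by
    intro i j k hij hik hjk h01
    have := gad {i, j, k} h01
    rwa [Finset.prod_insert (by simp [hij, hik]), Finset.prod_pair hjk, ← mul_assoc] at this
  have four : ∀ i j k l : Fin 6, i ≠ j → i ≠ k → i ≠ l → j ≠ k → j ≠ l → k ≠ l →
      ¬ (0 ∈ ({i, j, k, l} : Finset (Fin 6)) ∧ 1 ∈ ({i, j, k, l} : Finset _)) →
      (D (z i * z j * z k * z l) ↔ bal {i, j, k, l}) := by
    intro i j k l hij hik hil hjk hjl hkl h01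
    have := gad {i, j, k, l} h01
    rwa [Finset.prod_insert (by simp [hij, hik, hil]), Finset.prod_insert (by simp [hjk, hjl]),
      Finset.prod_pair hkl, ← mul_assoc, ← mul_assoc] at this
  have d1 : D 1 := by
    have := (gad ∅ (by simp)).2 (by decide)
    rwa [Finset.prod_empty] at this
  obtain ⟨⟨h1, h2, h3, h4, h5, h6⟩, ⟨s1, s2, s3, s4⟩, ⟨t1, t2, t3, t4⟩, ⟨u1, u2, u3, u4⟩, w,
    ⟨k1, k2, k3, k4⟩, ⟨l1, l2, l3, l4⟩, hn⟩ := okq_facts i i' j j' h
  exact {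
    pp := pos _
    pq := pos _
    pr := pos _
    ps := pos _
    d1 := d1
    np := fun hc => s1 ((one i).1 hc)
    nq := fun hc => s2 ((one i').1 hc)
    nr := fun hc => s3 ((one j).1 hc)
    ns := fun hc => s4 ((one j').1 hc)
    dpr := (two i j h2 k1).2 t1
    dps := (two i j' h3 k2).2 t2
    dqr := (two i' j h4 k3).2 t3
    dqs := (two i' j' h5 k4).2 t4
    npqr := fun hc => u1 ((three i i' j h1 h2 h4 l1).1 hc)
    npqs := fun hc => u2 ((three i i' j' h1 h3 h5 l2).1 hc)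
    nprs := fun hc => u3 ((three i j j' h2 h3 h6 l3).1 hc)
    nqrs := fun hc => u4 ((three i' j j' h4 h5 h6 l4).1 hc)
    dpqrs := (four i i' j j' h1 h2 h3 h4 h5 h6 hn).2 w }

/-- the labels of the training set -/
structure Lab {V : Type} [DecidableEq V] (D : ℝ × ℝ → Prop) (z : V → Fin 6 → ℝ × ℝ)
    (cl : Set (Finset V)) : Prop where
  pos : ∀ v q, Pos (z v q)
  gad : ∀ v, ∀ s : Finset (Fin 6), ¬ (0 ∈ s ∧ 1 ∈ s) → (D (∏ q ∈ s, z v q) ↔ bal s)
  pair : ∀ v, D (z v 0 * z v 1)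
  cl0 : ∀ s ∈ cl, D (∏ v ∈ s, z v 0)
  cl1 : ∀ s ∈ cl, D (∏ v ∈ s, z v 1)

/-- a colouring in which no nonempty member of `cl` is monochromatic -/
def Col {V : Type} (cl : Set (Finset V)) : Prop :=
  ∃ τ : V → Bool, ∀ s ∈ cl, s.Nonempty → ∃ v ∈ s, ∃ w ∈ s, τ v ≠ τ w

variable {V : Type} [DecidableEq V] {cl : Set (Finset V)} {z : V → Fin 6 → ℝ × ℝ}

/-- invariance under automorphisms -/
theorem Lab.map {D D' : ℝ × ℝ → Prop} (h : Lab D z cl) (φ : ℝ × ℝ →* ℝ × ℝ)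
    (hφ : ∀ p, Pos p → Pos (φ p)) (hD : ∀ p, Pos p → (D' (φ p) ↔ D p)) :
    Lab D' (fun v q => φ (z v q)) cl := by
  have hprod : ∀ (ι : Type) (s : Finset ι) (f : ι → ℝ × ℝ), (∀ i, Pos (f i)) →
      Pos (∏ i ∈ s, f i) := by
    intro ι s f hf
    exact Finset.prod_induction _ _ (fun a b ha hb => ha.mul hb) Pos.one (fun i _ => hf i)
  refine ⟨fun v q => hφ _ (h.pos v q), fun v s hs => ?_, fun v => ?_, fun s hs => ?_,
    fun s hs => ?_⟩
  · rw [← map_prod, hD _ (hprod _ _ _ fun q => h.pos v q)]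
    exact h.gad v s hs
  · rw [← map_mul, hD _ ((h.pos v 0).mul (h.pos v 1))]
    exact h.pair v
  · rw [← map_prod, hD _ (hprod _ _ _ fun v => h.pos v 0)]
    exact h.cl0 s hs
  · rw [← map_prod, hD _ (hprod _ _ _ fun v => h.pos v 1)]
    exact h.cl1 s hs

section canonical

variable {g b κ : ℝ}

theorem Lab.classes (h : Lab (Dc g b κ) z cl) (hκ : 0 < κ) (hgb : g * b < κ) (v : V)
    (q : Fin 6) : Rt (z v q) ∨ Up (z v q) := by
  have key : ∀ q : Fin 6, ∃ i i' j j' : Fin 6, okq i i' j j' ∧ (q = i ∨ q = j) := by decide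
  obtain ⟨i, i', j, j', hok, hq⟩ := key q
  have hQ := quad_of_gad (h.pos v) (h.gad v) i i' j j' hok
  rcases hq with rfl | rfl
  · exact class_of hκ hgb hQ.pp hQ.pr hQ.d1 hQ.np hQ.nr hQ.dpr
  · exact class_of hκ hgb hQ.pr hQ.pp hQ.d1 hQ.nr hQ.np (by rw [mul_comm]; exact hQ.dpr)

theorem not_Rt_and_Up {p : ℝ × ℝ} (h1 : Rt p) (h2 : Up p) : False := by
  have := h1.1
  have := h2.1
  linarith

omit [DecidableEq V] in
/-- colouring from opposite classes -/
theorem col_of (τ : V → Bool) (h : ∀ s ∈ cl, s.Nonempty → (∀ v ∈ s, τ v = true) → False)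
    (h' : ∀ s ∈ cl, s.Nonempty → (∀ v ∈ s, τ v = false) → False) : Col cl := by
  refine ⟨τ, fun s hs hne => ?_⟩
  by_contra hcon
  push Not at hcon
  obtain ⟨v, hv⟩ := hne
  cases hτ : τ v with
  | true => exact h s hs ⟨v, hv⟩ fun w hw => by rw [← hcon v hv w hw, hτ]
  | false => exact h' s hs ⟨v, hv⟩ fun w hw => by rw [← hcon v hv w hw, hτ]

/-- both `g` and `b` nonpositive -/
theorem col_nonpos (h : Lab (Dc g b κ) z cl) (hκ : 0 < κ) (hgb : g * b < κ) (hg : g ≤ 0)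
    (hb : b ≤ 0) : Col cl := by
  classical
  have hN : ∀ v, ¬ Dc g b κ (z v 0) := fun v =>
    (quad_of_gad (h.pos v) (h.gad v) 0 2 4 5 (by decide)).np
  have h1 : ∀ v : V, Dc g b κ 1 := fun v =>
    (quad_of_gad (h.pos v) (h.gad v) 0 2 4 5 (by decide)).d1
  have key : ∀ (C : ℝ × ℝ → Prop), (∀ p q, Pos p → Pos q → C p → C q → C (p * q)) →
      (C = Rt ∨ C = Up) → ∀ s : Finset V, s.Nonempty → (∀ v ∈ s, C (z v 0)) →
      Pos (∏ v ∈ s, z v 0) ∧ C (∏ v ∈ s, z v 0) ∧ ¬ Dc g b κ (∏ v ∈ s, z v 0) := by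
    intro C hC hCC s hs
    induction hs using Finset.Nonempty.cons_induction with
    | singleton a =>
      intro hall
      rw [Finset.prod_singleton]
      exact ⟨h.pos a 0, hall a (Finset.mem_singleton_self a), hN a⟩
    | cons a s ha hs ih =>
      intro hall
      have ih' := ih fun v hv => hall v (Finset.mem_cons_of_mem hv)
      have ha' := hall a (Finset.mem_cons_self a s)
      rw [Finset.prod_cons]
      refine ⟨(h.pos a 0).mul ih'.1, hC _ _ (h.pos a 0) ih'.1 ha' ih'.2.1, ?_⟩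
      refine same_mul hg hb hκ hgb (h.pos a 0) ih'.1 (h1 a) (hN a) ih'.2.2 ?_
      rcases hCC with rfl | rfl
      · exact Or.inl ⟨ha', ih'.2.1⟩
      · exact Or.inr ⟨ha', ih'.2.1⟩
  apply col_of (fun v => decide (Rt (z v 0)))
  · intro s hs hne hall
    refine (key Rt ?_ (Or.inl rfl) s hne fun v hv => by simpa using hall v hv).2.2 (h.cl0 s hs)
    intro p q hp hq hcp hcq
    exact ⟨one_lt_mul_of_lt_of_le hcp.1 hcq.1.le, mul_lt_one_of_nonneg_of_lt_one_left hp.2.le hcp.2 hcq.2.le⟩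
  · intro s hs hne hall
    refine (key Up ?_ (Or.inr rfl) s hne fun v hv => ?_).2.2 (h.cl0 s hs)
    · intro p q hp hq hcp hcq
      exact ⟨mul_lt_one_of_nonneg_of_lt_one_left hp.1.le hcp.1 hcq.1.le,
        one_lt_mul_of_lt_of_le hcp.2 hcq.2.le⟩
    · rcases h.classes hκ hgb v 0 with h2 | h2
      · have := hall v hv
        simp [h2] at this
      · exact h2

/-- `g ≤ 0 ≤ b` -/
theorem col_mixed (h : Lab (Dc g b κ) z cl) (hκ : 0 < κ) (hg : g ≤ 0) (hb : 0 ≤ b) :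
    Col cl := by
  classical
  have hgb : g * b < κ := lt_of_le_of_lt (mul_nonpos_of_nonpos_of_nonneg hg hb) hκ
  have hQ : ∀ v i i' j j', okq i i' j j' → Quad (Dc g b κ) (z v i) (z v i') (z v j) (z v j') :=
    fun v i i' j j' hok => quad_of_gad (h.pos v) (h.gad v) i i' j j' hok
  have hN : ∀ v, ¬ Dc g b κ (z v 0) := fun v => (hQ v 0 2 4 5 (by decide)).np
  have hN1 : ∀ v, ¬ Dc g b κ (z v 1) := fun v => (hQ v 2 3 1 4 (by decide)).nr
  have h1 : ∀ v : V, Dc g b κ 1 := fun v => (hQ v 0 2 4 5 (by decide)).d1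
  -- opposite classes
  have hopp : ∀ v, (Rt (z v 0) ∧ Up (z v 1)) ∨ (Up (z v 0) ∧ Rt (z v 1)) := by
    intro v
    -- the classes as booleans
    let c : Fin 6 → Bool := fun q => decide (Rt (z v q))
    have hc : ∀ q, c q = true → Rt (z v q) := fun q hq => by simpa [c] using hq
    have hc' : ∀ q, c q = false → Up (z v q) := fun q hq => by
      rcases h.classes hκ hgb v q with h2 | h2
      · simp [c, h2] at hq
      · exact h2
    have hmix : ∀ i i' j j', okq i i' j j' → ¬ (c i = c i' ∧ c i = c j) ∧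
        ¬ (c j = c j' ∧ c j = c i) := by
      intro i i' j j' hok
      have hq := hQ v i i' j j' hok
      obtain ⟨m1, m2⟩ := quad_mixed hg hb hq
      obtain ⟨m3, m4⟩ := quad_mixed hg hb hq.symm
      constructor
      · rintro ⟨e1, e2⟩
        cases hi : c i with
        | true => exact m1 ⟨hc _ hi, hc _ (e1 ▸ hi), hc _ (e2 ▸ hi)⟩
        | false => exact m2 ⟨hc' _ hi, hc' _ (e1 ▸ hi), hc' _ (e2 ▸ hi)⟩
      · rintro ⟨e1, e2⟩
        cases hi : c j with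
        | true => exact m3 ⟨hc _ hi, hc _ (e1 ▸ hi), hc _ (e2 ▸ hi)⟩
        | false => exact m4 ⟨hc' _ hi, hc' _ (e1 ▸ hi), hc' _ (e2 ▸ hi)⟩
    have hne : c 0 ≠ c 1 := bool_fact (c 0) (c 1) (c 2) (c 3) (c 4) (c 5)
      (hmix 0 2 4 5 (by decide)) (hmix 0 3 4 5 (by decide)) (hmix 2 3 4 5 (by decide))
      (hmix 2 3 1 4 (by decide)) (hmix 2 3 1 5 (by decide)) (hmix 2 3 4 1 (by decide))
      (hmix 3 2 1 4 (by decide)) (hmix 3 2 1 5 (by decide)) (hmix 3 2 4 5 (by decide))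
      (hmix 2 3 5 4 (by decide))
    cases h0 : c 0 <;> cases h2 : c 1
    · exact absurd (h0.trans h2.symm) hne
    · exact Or.inr ⟨hc' _ h0, hc _ h2⟩
    · exact Or.inl ⟨hc _ h0, hc' _ h2⟩
    · exact absurd (h0.trans h2.symm) hne
  -- products of members of the class Up with partners in the class Rt
  have key : ∀ (i j : Fin 6), (∀ v, ¬ Dc g b κ (z v i)) → (∀ v, ¬ Dc g b κ (z v j)) →
      (∀ v, Dc g b κ (z v j * z v i)) → ∀ s : Finset V, s.Nonempty →
      (∀ v ∈ s, Up (z v i) ∧ Rt (z v j)) →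
      Pos (∏ v ∈ s, z v i) ∧ (∏ v ∈ s, z v i).1 < 1 ∧
        b * (∏ v ∈ s, z v i).1 < -g * (κ - b * g) ∧ ¬ Dc g b κ (∏ v ∈ s, z v i) := by
    intro i j hNi hNj hD s hs
    have deep : ∀ v, Up (z v i) → Rt (z v j) → b * (z v i).1 < -g * (κ - b * g) := by
      intro v h2 h3
      have c1 := chain hg hb hκ (h1 v) (h.pos v j).1 (h.pos v i).1 (out_iff.1 (hNj v))
        (out_iff.1 (hNi v)) (hD v)
      have c2 : (1 - (z v j).1) * (1 - (z v i).1) < 0 :=
        mul_neg_of_neg_of_pos (by linarith [h3.1]) (by linarith [h2.1])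
      have c3 : 0 < -g * (κ - b * g) - b * ((z v j).1 * (z v i).1) := by
        by_contra hcon
        push Not at hcon
        have := mul_nonneg_of_nonpos_of_nonpos c2.le hcon
        linarith
      have c4 : b * (z v i).1 ≤ b * ((z v j).1 * (z v i).1) := by
        apply mul_le_mul_of_nonneg_left _ hb
        nlinarith [(h.pos v i).1, h3.1]
      linarith
    induction hs using Finset.Nonempty.cons_induction with
    | singleton a =>
      intro hall
      rw [Finset.prod_singleton]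
      obtain ⟨h2, h3⟩ := hall a (Finset.mem_singleton_self a)
      exact ⟨h.pos a i, h2.1, deep a h2 h3, hNi a⟩
    | cons a s ha hs ih =>
      intro hall
      obtain ⟨i1, i2, i3, i4⟩ := ih fun v hv => hall v (Finset.mem_cons_of_mem hv)
      obtain ⟨h2, h3⟩ := hall a (Finset.mem_cons_self a s)
      rw [Finset.prod_cons]
      set t := ∏ v ∈ s, z v i with ht
      have hpos := (h.pos a i)
      have hlt : (z a i * t).1 < 1 :=
        mul_lt_one_of_nonneg_of_lt_one_left hpos.1.le h2.1 i2.le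
      have hdeep : b * (z a i * t).1 < -g * (κ - b * g) := by
        have e1 : b * ((z a i).1 * t.1) ≤ b * (z a i).1 := by
          apply mul_le_mul_of_nonneg_left _ hb
          nlinarith [hpos.1, i1.1]
        exact lt_of_le_of_lt e1 (deep a h2 h3)
      refine ⟨hpos.mul i1, hlt, hdeep, fun hcon => ?_⟩
      have c1 := chain hg hb hκ (h1 a) hpos.1 i1.1 (out_iff.1 (hNi a)) (out_iff.1 i4) hcon
      have c2 : 0 < (1 - (z a i).1) * (1 - t.1) :=
        mul_pos (by linarith [h2.1]) (by linarith)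
      have c3 : 0 < -g * (κ - b * g) - b * ((z a i).1 * t.1) := by
        have : b * ((z a i).1 * t.1) < -g * (κ - b * g) := hdeep
        linarith
      have := mul_pos c2 c3
      linarith
  apply col_of (fun v => decide (Rt (z v 0)))
  · intro s hs hne hall
    refine (key 1 0 hN1 hN (fun v => h.pair v) s hne fun v hv => ?_).2.2.2 (h.cl1 s hs)
    have h2 : Rt (z v 0) := by simpa using hall v hv
    rcases hopp v with h3 | h3
    · exact ⟨h3.2, h2⟩
    · exact (not_Rt_and_Up h2 h3.1).elim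
  · intro s hs hne hall
    refine (key 0 1 hN hN1 (fun v => by rw [mul_comm]; exact h.pair v) s hne
      fun v hv => ?_).2.2.2 (h.cl0 s hs)
    rcases hopp v with h3 | h3
    · have := hall v hv
      simp [h3.1] at this
    · exact ⟨h3.1, h3.2⟩

/-- exchange of the coordinates -/
def swapHom : ℝ × ℝ →* ℝ × ℝ where
  toFun p := (p.2, p.1)
  map_one' := rfl
  map_mul' _ _ := rfl

/-- all hyperbolic regions -/
theorem col_canonical (h : Lab (Dc g b κ) z cl) (hκ : 0 < κ) (hgb : g * b < κ) : Col cl := by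
  classical
  by_cases hV : Nonempty V
  · obtain ⟨v⟩ := hV
    rcases le_total g 0 with hg | hg <;> rcases le_total b 0 with hb | hb
    · exact col_nonpos h hκ hgb hg hb
    · exact col_mixed h hκ hg hb
    · refine col_mixed (g := b) (b := g) (h.map swapHom (fun p hp => ⟨hp.2, hp.1⟩)
        (fun p _ => ?_)) hκ hb hg
      unfold Dc swapHom
      simp only [MonoidHom.coe_mk, OneHom.coe_mk]
      rw [mul_comm]
    · exact (quad_nonneg hg hb hκ hgb
        (quad_of_gad (h.pos v) (h.gad v) 0 2 4 5 (by decide))).elim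
  · refine ⟨fun _ => true, fun s _ hne => ?_⟩
    obtain ⟨v, _⟩ := hne
    exact (hV ⟨v⟩).elim

end canonical

end Pool.Agent.W945.Sig
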