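import Mathlib
import Pool.Agent.NPC.Defs

/-!
# The loading problem for the architecture with two sigmoid hidden nodes
-/

set_option autoImplicit false

namespace Pool.Agent.W945.Sig

open Pool.Agent.NPC

/-- The Heaviside function: `true` (one) at `t ≥ 0`, `false` (zero) at `t < 0`. -/
noncomputable def heaviside (t : ℝ) : Bool := by
  classical exact decide (0 ≤ t)

/-- The parameters of the network `N_k`: weights `w₁, w₂` and biases `b₁, b₂` of the two hidden
nodes, weights `a₁, a₂` and bias `a₀` of the output node; all are arbitrary real numbers. -/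
structure Params (k : ℕ) where
  w₁ : Fin k → ℝ
  w₂ : Fin k → ℝ
  b₁ : ℝ
  b₂ : ℝ
  a₀ : ℝ
  a₁ : ℝ
  a₂ : ℝ

/-- The inner product of a weight vector and a Boolean vector. -/
noncomputable def dot {k : ℕ} (w : Fin k → ℝ) (x : Fin k → Bool) : ℝ :=
  ∑ i, w i * (if x i then 1 else 0)

/-- The function computed by the network: the hidden nodes are standard sigmoids
`σ(z) = 1 / (1 + exp (-z))` and the output node is a perceptron. -/
noncomputable def Params.output {k : ℕ} (θ : Params k) (x : Fin k → Bool) : Bool :=
  heaviside (θ.a₁ * Real.sigmoid (dot θ.w₁ x + θ.b₁) + θ.a₂ * Real.sigmoid (dot θ.w₂ x + θ.b₂) +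
    θ.a₀)

/-- The instances: the input dimension `k` and a list of labelled points `(x, y)`; the point `x` is
a list of bits, which has to have length `k`. -/
abbrev Instance : Type := ℕ × List (List Bool × Bool)

/-- All points have `k` coordinates, and some choice of the parameters gives the label `y` for all
labelled points `(x, y)`. -/
def Loadable (I : Instance) : Prop :=
  (∀ p ∈ I.2, p.1.length = I.1) ∧
    ∃ θ : Params I.1, ∀ p ∈ I.2, θ.output (fun i => p.1.getD i false) = p.2

/-- There are at most `k` labelled points. -/
def Few (I : Instance) : Prop := I.2.length ≤ I.1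

theorem heaviside_true {t : ℝ} : heaviside t = true ↔ 0 ≤ t := by
  unfold heaviside
  simp

theorem heaviside_false {t : ℝ} : heaviside t = false ↔ t < 0 := by
  unfold heaviside
  simp

end Pool.Agent.W945.Sig
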