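import Pool.Agent.W945.Sig.Comb

/-!
# All decision regions of two sigmoids
-/

set_option autoImplicit false

namespace Pool.Agent.W945.Sig

/-- the region where the four-term function is nonnegative -/
def Dg (α β γ δ : ℝ) (p : ℝ × ℝ) : Prop := 0 ≤ G α β γ δ p.1 p.2

variable {V : Type} [DecidableEq V] {cl : Set (Finset V)} {z : V → Fin 6 → ℝ × ℝ}
  {α β γ δ : ℝ}

/-- inversion of the first coordinate -/
noncomputable def invX : ℝ × ℝ →* ℝ × ℝ where
  toFun p := (p.1⁻¹, p.2)
  map_one' := by simp [Prod.one_eq_mk]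
  map_mul' p q := by simp [mul_comm]

/-- inversion of the second coordinate -/
noncomputable def invY : ℝ × ℝ →* ℝ × ℝ where
  toFun p := (p.1, p.2⁻¹)
  map_one' := by simp [Prod.one_eq_mk]
  map_mul' p q := by simp [mul_comm]

theorem Lab.flipX (h : Lab (Dg α β γ δ) z cl) :
    Lab (Dg β α δ γ) (fun v q => invX (z v q)) cl := by
  refine h.map invX (fun p hp => ⟨inv_pos.2 hp.1, hp.2⟩) fun p hp => ?_
  have hp1 := hp.1
  have e : G β α δ γ p.1⁻¹ p.2 = p.1⁻¹ * G α β γ δ p.1 p.2 := by
    unfold G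
    field_simp
    ring
  show 0 ≤ G β α δ γ p.1⁻¹ p.2 ↔ 0 ≤ G α β γ δ p.1 p.2
  rw [e]
  exact mul_nonneg_iff_of_pos_left (inv_pos.2 hp1)

theorem Lab.flipY (h : Lab (Dg α β γ δ) z cl) :
    Lab (Dg γ δ α β) (fun v q => invY (z v q)) cl := by
  refine h.map invY (fun p hp => ⟨hp.1, inv_pos.2 hp.2⟩) fun p hp => ?_
  have hp2 := hp.2
  have e : G γ δ α β p.1 p.2⁻¹ = p.2⁻¹ * G α β γ δ p.1 p.2 := by
    unfold G
    field_simp
    ring
  show 0 ≤ G γ δ α β p.1 p.2⁻¹ ↔ 0 ≤ G α β γ δ p.1 p.2
  rw [e]
  exact mul_nonneg_iff_of_pos_left (inv_pos.2 hp2)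

theorem Dg_iff (hδ : δ < 0) (p : ℝ × ℝ) : Dg α β γ δ p ↔
    Dc (γ / -δ) (β / -δ) ((β * γ - α * δ) / (δ * δ)) p := by
  have h1 : δ ≠ 0 := hδ.ne
  have h2 : 0 < δ * δ := mul_pos_of_neg_of_neg hδ hδ
  unfold Dg Dc
  rw [← sub_nonneg (a := (β * γ - α * δ) / (δ * δ))]
  have e : (β * γ - α * δ) / (δ * δ) - (p.1 - γ / -δ) * (p.2 - β / -δ) =
      (-δ)⁻¹ * G α β γ δ p.1 p.2 := by
    unfold G
    field_simp
    ring
  rw [e]
  exact (mul_nonneg_iff_of_pos_left (inv_pos.2 (by linarith))).symm

theorem Lab.congr {D D' : ℝ × ℝ → Prop} (h : Lab D z cl) (hD : ∀ p, D p ↔ D' p) :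
    Lab D' z cl := by
  have : D = D' := funext fun p => propext (hD p)
  rwa [← this]

theorem col_strict (h : Lab (Dg α β γ δ) z cl) (hα : 0 < α) (hδ : δ < 0)
    (hc : α * δ < β * γ) : Col cl := by
  have h2 : 0 < δ * δ := mul_pos_of_neg_of_neg hδ hδ
  refine col_canonical (h.congr (Dg_iff hδ)) (div_pos (by linarith) h2) ?_
  rw [div_mul_div_comm, show -δ * -δ = δ * δ by ring]
  apply div_lt_div_of_pos_right _ h2
  nlinarith

theorem col_corner (h : Lab (Dg α β γ δ) z cl) (hα : 0 < α) (hδ : δ < 0) : Col cl := by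
  classical
  rcases lt_trichotomy (α * δ) (β * γ) with hc | hc | hc
  · exact col_strict h hα hδ hc
  · -- a single threshold
    by_cases hV : Nonempty V
    · exfalso
      obtain ⟨v⟩ := hV
      have hQ := quad_of_gad (h.pos v) (h.gad v) 0 2 4 5 (by decide)
      have hneg : β * γ < 0 := by rw [← hc]; exact mul_neg_of_pos_of_neg hα hδ
      have d1 : 0 ≤ G α β γ δ 1 1 := hQ.d1
      have np : G α β γ δ (z v 0).1 (z v 0).2 < 0 := not_le.1 hQ.np
      have nr : G α β γ δ (z v 4).1 (z v 4).2 < 0 := not_le.1 hQ.nr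
      have dpr : 0 ≤ G α β γ δ ((z v 0).1 * (z v 4).1) ((z v 0).2 * (z v 4).2) := hQ.dpr
      obtain ⟨X0, Y0⟩ := hQ.pp
      obtain ⟨P0, Q0⟩ := hQ.pr
      clear hQ
      generalize (z v 0).1 = X at *
      generalize (z v 0).2 = Y at *
      generalize (z v 4).1 = P at *
      generalize (z v 4).2 = Q at *
      have fac : ∀ X Y : ℝ, α * G α β γ δ X Y = (α + β * X) * (α + γ * Y) := by
        intro X Y
        unfold G
        have : α * (α + β * X + γ * Y + δ * (X * Y)) =
          α * α + α * β * X + α * γ * Y + (α * δ) * (X * Y) := by ring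
        rw [this, hc]
        ring
      rcases mul_neg_iff.1 hneg with ⟨hb, hg⟩ | ⟨hb, hg⟩
      · -- β > 0 > γ : threshold in Y
        have f : ∀ X Y : ℝ, 0 < X → (0 ≤ G α β γ δ X Y ↔ 0 ≤ α + γ * Y) := by
          intro X Y hX
          have h1 : 0 < α + β * X := by positivity
          rw [← mul_nonneg_iff_of_pos_left hα, fac, mul_nonneg_iff_of_pos_left h1]
        have f1 := (f 1 1 one_pos).1 d1
        have f2 : ¬ (0 ≤ α + γ * Y) := fun hh => not_le.2 np ((f X Y X0).2 hh)
        have f3 : ¬ (0 ≤ α + γ * Q) := fun hh => not_le.2 nr ((f P Q P0).2 hh)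
        have f4 := (f (X * P) (Y * Q) (mul_pos X0 P0)).1 dpr
        have g2 : 1 < Y := by nlinarith
        have g3 : Y < Y * Q := by nlinarith
        nlinarith
      · have f : ∀ X Y : ℝ, 0 < Y → (0 ≤ G α β γ δ X Y ↔ 0 ≤ α + β * X) := by
          intro X Y hY
          have h1 : 0 < α + γ * Y := by positivity
          rw [← mul_nonneg_iff_of_pos_left hα, fac, mul_comm (α + β * X),
            mul_nonneg_iff_of_pos_left h1]
        have f1 := (f 1 1 one_pos).1 d1
        have f2 : ¬ (0 ≤ α + β * X) := fun hh => not_le.2 np ((f X Y Y0).2 hh)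
        have f3 : ¬ (0 ≤ α + β * P) := fun hh => not_le.2 nr ((f P Q Q0).2 hh)
        have f4 := (f (X * P) (Y * Q) (mul_pos Y0 Q0)).1 dpr
        have g2 : 1 < X := by nlinarith
        have g3 : X < X * P := by nlinarith
        nlinarith
    · refine ⟨fun _ => true, fun s _ hne => ?_⟩
      obtain ⟨v, _⟩ := hne
      exact (hV ⟨v⟩).elim
  · have hneg : β * γ < 0 := hc.trans (mul_neg_of_pos_of_neg hα hδ)
    rcases mul_neg_iff.1 hneg with ⟨hb, hg⟩ | ⟨hb, hg⟩
    · exact col_strict h.flipX hb hg hc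
    · exact col_strict h.flipY hg hb (by linarith)

/-- **Soundness.** -/
theorem col_general (h : Lab (Dg α β γ δ) z cl)
    (hH : ∃ s t : ℝ, 0 < s ∧ 0 < t ∧ α * (s * t) + δ = β * t + γ * s) : Col cl := by
  classical
  by_cases hV : Nonempty V
  · by_cases c1 : 0 < α ∧ δ < 0
    · exact col_corner h c1.1 c1.2
    by_cases c2 : 0 < δ ∧ α < 0
    · exact col_corner h.flipX.flipY c2.1 c2.2
    by_cases c3 : 0 < β ∧ γ < 0
    · exact col_corner h.flipX c3.1 c3.2
    by_cases c4 : 0 < γ ∧ β < 0
    · exact col_corner h.flipY c4.1 c4.2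
    exfalso
    obtain ⟨v⟩ := hV
    obtain ⟨s, t, hs, ht, hst⟩ := hH
    have hQ := quad_of_gad (h.pos v) (h.gad v) 0 2 4 5 (by decide)
    have d1 : 0 ≤ G α β γ δ 1 1 := hQ.d1
    have np : G α β γ δ (z v 0).1 (z v 0).2 < 0 := not_le.1 hQ.np
    obtain ⟨X0, Y0⟩ := hQ.pp
    clear hQ
    generalize (z v 0).1 = X at *
    generalize (z v 0).2 = Y at *
    unfold G at d1 np
    have XY := mul_pos X0 Y0
    have zero : α = 0 → β = 0 → γ = 0 → δ = 0 → False := by
      intro e1 e2 e3 e4
      rw [e1, e2, e3, e4] at np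
      linarith
    rcases le_or_gt α 0 with a | a
    · rcases le_or_gt δ 0 with d | d
      · -- α, δ ≤ 0
        rcases le_or_gt β 0 with b | b
        · rcases le_or_gt γ 0 with c | c
          · exact zero (by linarith) (by linarith) (by linarith) (by linarith)
          · have b0 : β = 0 := by
              by_contra hb
              exact c4 ⟨c, lt_of_le_of_ne b hb⟩
            rw [b0] at hst
            have h1 : α * (s * t) ≤ 0 := mul_nonpos_of_nonpos_of_nonneg a (mul_pos hs ht).le
            have h2 : 0 < γ * s := mul_pos c hs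
            linarith
        · have c0 : 0 ≤ γ := by
            by_contra hc
            exact c3 ⟨b, not_le.1 hc⟩
          have h1 : α * (s * t) ≤ 0 := mul_nonpos_of_nonpos_of_nonneg a (mul_pos hs ht).le
          have h2 : 0 ≤ γ * s := mul_nonneg c0 hs.le
          have h3 : 0 < β * t := mul_pos b ht
          linarith
      · have a0 : α = 0 := by
          by_contra ha
          exact c2 ⟨d, lt_of_le_of_ne a ha⟩
        rw [a0] at hst np
        rcases le_or_gt β 0 with b | b
        · rcases le_or_gt γ 0 with c | c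
          · have h1 : β * t ≤ 0 := mul_nonpos_of_nonpos_of_nonneg b ht.le
            have h2 : γ * s ≤ 0 := mul_nonpos_of_nonpos_of_nonneg c hs.le
            linarith
          · have b0 : β = 0 := by
              by_contra hb
              exact c4 ⟨c, lt_of_le_of_ne b hb⟩
            rw [b0] at np
            have := mul_pos c Y0
            have := mul_pos d XY
            linarith
        · have c0 : 0 ≤ γ := by
            by_contra hc
            exact c3 ⟨b, not_le.1 hc⟩
          have := mul_pos b X0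
          have := mul_nonneg c0 Y0.le
          have := mul_pos d XY
          linarith
    · have d0 : 0 ≤ δ := by
        by_contra hd
        exact c1 ⟨a, not_le.1 hd⟩
      rcases le_or_gt β 0 with b | b
      · rcases le_or_gt γ 0 with c | c
        · have h1 : β * t ≤ 0 := mul_nonpos_of_nonpos_of_nonneg b ht.le
          have h2 : γ * s ≤ 0 := mul_nonpos_of_nonpos_of_nonneg c hs.le
          have h3 : 0 < α * (s * t) := mul_pos a (mul_pos hs ht)
          linarith
        · have b0 : β = 0 := by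
            by_contra hb
            exact c4 ⟨c, lt_of_le_of_ne b hb⟩
          rw [b0] at np
          have := mul_pos c Y0
          have := mul_nonneg d0 XY.le
          linarith
      · have c0 : 0 ≤ γ := by
          by_contra hc
          exact c3 ⟨b, not_le.1 hc⟩
        have := mul_pos b X0
        have := mul_nonneg c0 Y0.le
        have := mul_nonneg d0 XY.le
        linarith
  · refine ⟨fun _ => true, fun s _ hne => ?_⟩
    obtain ⟨v, _⟩ := hne
    exact (hV ⟨v⟩).elim

end Pool.Agent.W945.Sig
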