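import Pool.Agent.W945.Sig.Gen
import Pool.Agent.W945.Sig.Defs
import Pool.Agent.H648R3.WC.Nae

/-!
# The reduction from monotone not-all-equal satisfiability
-/

set_option autoImplicit false

namespace Pool.Agent.W945.Sig

open Pool.Agent.NPC Pool.Agent.NPC.WC648

/-- a block of 66 inputs; the first 6 of them are given by the set `s` -/
def blk (s : Finset (Fin 6)) : List Bool :=
  (List.ofFn fun q : Fin 6 => decide (q ∈ s)) ++ List.replicate 60 false

theorem blk_length (s : Finset (Fin 6)) : (blk s).length = 66 := by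
  simp [blk]

/-- the labelled blocks of a variable -/
noncomputable def gadL : List (List Bool × Bool) :=
  ((Finset.univ : Finset (Finset (Fin 6))).toList.filter (fun s => decide (sep s))).map
    (fun s => (blk s, decide (bal s))) ++ [(blk {0, 1}, true)]

theorem gadL_length : gadL.length ≤ 65 := by
  unfold gadL
  rw [List.length_append, List.length_map, List.length_singleton]
  have h1 : (List.filter (fun s => decide (sep s))
      (Finset.univ : Finset (Finset (Fin 6))).toList).length ≤ 64 := by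
    refine (List.length_filter_le _ _).trans ?_
    rw [Finset.length_toList, Finset.card_univ, Fintype.card_finset, Fintype.card_fin]
    norm_num
  omega

/-- the occurrences of variables -/
def vars (φ : List (NV × NV × NV)) : List NV := φ.flatMap fun t => [t.1, t.2.1, t.2.2]

/-- the point with block `g` at the variable `v` -/
def pt (L : List NV) (v : NV) (g : List Bool) : List Bool :=
  L.flatMap fun w => if w = v then g else blk ∅

/-- the point with block `g` at the variables of a clause -/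
def ptc (L : List NV) (t : NV × NV × NV) (g : List Bool) : List Bool :=
  L.flatMap fun w => if w = t.1 ∨ w = t.2.1 ∨ w = t.2.2 then g else blk ∅

/-- the reduction -/
noncomputable def red (φ : List (NV × NV × NV)) : Instance :=
  ((vars φ).length * 66,
    (vars φ).flatMap (fun v => gadL.map fun g => (pt (vars φ) v g.1, g.2)) ++
      φ.flatMap fun t => [(ptc (vars φ) t (blk {0}), true), (ptc (vars φ) t (blk {1}), true)])

theorem red_poly : Poly red := by
  unfold red vars pt ptc
  fun_prop

theorem flatMap_length_const {α β : Type} (L : List α) (f : α → List β) (c : ℕ)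
    (h : ∀ a ∈ L, (f a).length = c) : (L.flatMap f).length = L.length * c := by
  induction L with
  | nil => simp
  | cons a L ih =>
    rw [List.flatMap_cons, List.length_append, h a List.mem_cons_self,
      ih fun b hb => h b (List.mem_cons_of_mem _ hb), List.length_cons]
    ring

theorem flatMap_length_le' {α β : Type} (L : List α) (f : α → List β) (c : ℕ)
    (h : ∀ a ∈ L, (f a).length ≤ c) : (L.flatMap f).length ≤ L.length * c := by
  induction L with
  | nil => simp
  | cons a L ih =>
    rw [List.flatMap_cons, List.length_append, List.length_cons, add_mul, one_mul, add_comm]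
    exact Nat.add_le_add (ih fun b hb => h b (List.mem_cons_of_mem _ hb))
      (h a List.mem_cons_self)

theorem vars_length (φ : List (NV × NV × NV)) : (vars φ).length = φ.length * 3 :=
  flatMap_length_const φ _ 3 fun _ _ => rfl

theorem red_few (φ : List (NV × NV × NV)) : Few (red φ) := by
  unfold Few red
  simp only [List.length_append]
  have h1 : ((vars φ).flatMap (fun v => gadL.map fun g => (pt (vars φ) v g.1, g.2))).length ≤
      (vars φ).length * 65 :=
    flatMap_length_le' _ _ _ fun v _ => by rw [List.length_map]; exact gadL_length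
  have h2 : (φ.flatMap fun t => [(ptc (vars φ) t (blk {0}), true),
      (ptc (vars φ) t (blk {1}), true)]).length ≤ φ.length * 2 :=
    flatMap_length_le' _ _ _ fun t _ => by simp
  rw [vars_length] at *
  omega

theorem gadL_blk {g : List Bool × Bool} (hg : g ∈ gadL) : ∃ s, g.1 = blk s := by
  unfold gadL at hg
  rw [List.mem_append, List.mem_map] at hg
  rcases hg with ⟨s, _, rfl⟩ | hg
  · exact ⟨s, rfl⟩
  · rw [List.mem_singleton] at hg
    exact ⟨_, by rw [hg]⟩

theorem pt_length (L : List NV) (v : NV) (s : Finset (Fin 6)) :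
    (pt L v (blk s)).length = L.length * 66 :=
  flatMap_length_const L _ 66 fun w _ => by split_ifs <;> exact blk_length _

theorem ptc_length (L : List NV) (t : NV × NV × NV) (s : Finset (Fin 6)) :
    (ptc L t (blk s)).length = L.length * 66 :=
  flatMap_length_const L _ 66 fun w _ => by split_ifs <;> exact blk_length _

theorem red_wf (φ : List (NV × NV × NV)) : ∀ p ∈ (red φ).2, p.1.length = (red φ).1 := by
  intro p hp
  unfold red at hp ⊢
  simp only [List.mem_append, List.mem_flatMap, List.mem_map, List.mem_cons, List.not_mem_nil,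
    or_false] at hp ⊢
  rcases hp with ⟨v, _, g, hg, rfl⟩ | ⟨t, _, rfl | rfl⟩
  · obtain ⟨s, hs⟩ := gadL_blk hg
    rw [hs]
    exact pt_length _ _ _
  · exact ptc_length _ _ _
  · exact ptc_length _ _ _

/-! ### evaluation of linear forms -/

/-- the value of the linear form with weights `w n, w (n + 1), …` -/
noncomputable def ev (w : ℕ → ℝ) : ℕ → List Bool → ℝ
  | _, [] => 0
  | n, b :: x => w n * (if b then 1 else 0) + ev w (n + 1) x

theorem ev_append (w : ℕ → ℝ) (x y : List Bool) : ∀ n, ev w n (x ++ y) =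
    ev w n x + ev w (n + x.length) y := by
  induction x with
  | nil => intro n; simp [ev]
  | cons b x ih =>
    intro n
    rw [List.cons_append, ev, ev, ih, List.length_cons,
      show n + 1 + x.length = n + (x.length + 1) by ring]
    ring

theorem ev_replicate (w : ℕ → ℝ) (m : ℕ) : ∀ n, ev w n (List.replicate m false) = 0 := by
  induction m with
  | zero => intro n; rfl
  | succ m ih => intro n; rw [List.replicate_succ, ev, ih]; simp

theorem ev_eq_sum (w : ℕ → ℝ) (x : List Bool) : ∀ n,
    ev w n x = ∑ i ∈ Finset.range x.length, w (n + i) * (if x.getD i false then 1 else 0) := by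
  induction x with
  | nil => intro n; simp [ev]
  | cons b x ih =>
    intro n
    rw [List.length_cons, Finset.sum_range_succ', ev, ih]
    simp only [List.getD_cons_succ, List.getD_cons_zero, add_zero]
    rw [add_comm]
    congr 1
    apply Finset.sum_congr rfl
    intro i _
    rw [show n + 1 + i = n + (i + 1) by ring]

theorem dot_eq_ev {k : ℕ} (w : Fin k → ℝ) (x : List Bool) (hx : x.length = k) :
    dot w (fun i => x.getD i false) = ev (fun n => if h : n < k then w ⟨n, h⟩ else 0) 0 x := by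
  rw [ev_eq_sum, hx]
  unfold dot
  rw [← Fin.sum_univ_eq_sum_range
    (fun i => (if h : 0 + i < k then w ⟨0 + i, h⟩ else 0) * (if x.getD i false then (1 : ℝ) else 0))]
  apply Finset.sum_congr rfl
  intro i _
  simp

theorem ev_blk (w : ℕ → ℝ) (n : ℕ) (s : Finset (Fin 6)) :
    ev w n (blk s) = ∑ q : Fin 6, (if q ∈ s then 1 else 0) * w (n + q) := by
  unfold blk
  rw [ev_append, ev_replicate, add_zero, ev_eq_sum]
  rw [List.length_ofFn, ← Fin.sum_univ_eq_sum_range (fun i => w (n + i) *
    (if (List.ofFn fun q : Fin 6 => decide (q ∈ s)).getD i false then (1 : ℝ) else 0))]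
  apply Finset.sum_congr rfl
  intro q _
  rw [mul_comm]
  congr 1
  have h1 : (List.ofFn fun q : Fin 6 => decide (q ∈ s)).getD (q : ℕ) false = decide (q ∈ s) := by
    rw [List.getD_eq_getElem _ _ (by simp), List.getElem_ofFn]
  rw [h1]
  simp only [decide_eq_true_eq]

/-- the linear form for real multiplicities -/
noncomputable def cf (w : ℕ → ℝ) : ℕ → List NV → (NV → Fin 6 → ℝ) → ℝ
  | _, [], _ => 0
  | n, u :: L, m => ∑ q : Fin 6, m u q * w (n + q) + cf w (n + 66) L m

theorem ev_flatMap (w : ℕ → ℝ) (L : List NV) (S : NV → Finset (Fin 6)) : ∀ n,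
    ev w n (L.flatMap fun u => blk (S u)) =
      cf w n L (fun u q => if q ∈ S u then 1 else 0) := by
  induction L with
  | nil => intro n; rfl
  | cons u L ih =>
    intro n
    rw [List.flatMap_cons, ev_append, ih, blk_length, ev_blk, cf]

theorem cf_congr (w : ℕ → ℝ) (L : List NV) {m m' : NV → Fin 6 → ℝ}
    (h : ∀ u ∈ L, ∀ q, m u q = m' u q) : ∀ n, cf w n L m = cf w n L m' := by
  induction L with
  | nil => intro n; rfl
  | cons u L ih =>
    intro n
    rw [cf, cf, ih fun u hu => h u (List.mem_cons_of_mem _ hu)]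
    congr 1
    exact Finset.sum_congr rfl fun q _ => by rw [h u List.mem_cons_self q]

theorem cf_sum {ι : Type} (w : ℕ → ℝ) (L : List NV) (I : Finset ι) (m : ι → NV → Fin 6 → ℝ) :
    ∀ n, cf w n L (fun u q => ∑ i ∈ I, m i u q) = ∑ i ∈ I, cf w n L (m i) := by
  induction L with
  | nil => intro n; simp [cf]
  | cons u L ih =>
    intro n
    simp only [cf]
    rw [ih, Finset.sum_add_distrib]
    congr 1
    rw [Finset.sum_comm]
    apply Finset.sum_congr rfl
    intro q _
    rw [Finset.sum_mul]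

/-- the value at the unit vector of the input `q` of the variable `v` -/
noncomputable def cq (w : ℕ → ℝ) (L : List NV) (v : NV) (q : Fin 6) : ℝ :=
  cf w 0 L (fun u q' => if u = v ∧ q' = q then 1 else 0)

theorem ev_pt (w : ℕ → ℝ) (L : List NV) (v : NV) (s : Finset (Fin 6)) :
    ev w 0 (pt L v (blk s)) = ∑ q ∈ s, cq w L v q := by
  unfold pt cq
  have h1 : (fun w : NV => if w = v then blk s else blk ∅) =
      fun w => blk (if w = v then s else ∅) := by
    funext w
    split_ifs <;> rfl
  rw [h1, ev_flatMap, ← cf_sum]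
  apply cf_congr
  intro u _ q
  by_cases hu : u = v
  · simp [hu]
  · simp [hu]

theorem ev_ptc (w : ℕ → ℝ) (L : List NV) (t : NV × NV × NV) (q : Fin 6) :
    ev w 0 (ptc L t (blk {q})) = ∑ v ∈ ({t.1, t.2.1, t.2.2} : Finset NV), cq w L v q := by
  unfold ptc cq
  have h1 : (fun w : NV => if w = t.1 ∨ w = t.2.1 ∨ w = t.2.2 then blk {q} else blk ∅) =
      fun w => blk (if w = t.1 ∨ w = t.2.1 ∨ w = t.2.2 then {q} else ∅) := by
    funext w
    split_ifs <;> rfl
  rw [h1, ev_flatMap, ← cf_sum]
  apply cf_congr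
  intro u _ q'
  have h2 : ∀ v : NV, (if u = v ∧ q' = q then (1 : ℝ) else 0) =
      if u = v then (if q' = q then 1 else 0) else 0 := by
    intro v
    by_cases h : u = v <;> simp [h]
  simp only [h2]
  rw [Finset.sum_ite_eq]
  by_cases hu : u = t.1 ∨ u = t.2.1 ∨ u = t.2.2
  · simp [hu]
  · have : u ∉ ({t.1, t.2.1, t.2.2} : Finset NV) := by simpa using hu
    simp [hu]

/-! ### soundness -/

theorem output_iff {k : ℕ} (θ : Params k) (x : Fin k → Bool) :
    θ.output x = true ↔ 0 ≤ G (θ.a₀ + θ.a₁ + θ.a₂) ((θ.a₀ + θ.a₂) * Real.exp (-θ.b₁))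
      ((θ.a₀ + θ.a₁) * Real.exp (-θ.b₂)) (θ.a₀ * (Real.exp (-θ.b₁) * Real.exp (-θ.b₂)))
      (Real.exp (-dot θ.w₁ x)) (Real.exp (-dot θ.w₂ x)) := by
  unfold Params.output
  rw [heaviside_true]
  set u := dot θ.w₁ x
  set v := dot θ.w₂ x
  have e1 : Real.exp (-(u + θ.b₁)) = Real.exp (-θ.b₁) * Real.exp (-u) := by
    rw [← Real.exp_add]; congr 1; ring
  have e2 : Real.exp (-(v + θ.b₂)) = Real.exp (-θ.b₂) * Real.exp (-v) := by
    rw [← Real.exp_add]; congr 1; ring
  have p1 : 0 < 1 + Real.exp (-(u + θ.b₁)) := by positivity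
  have p2 : 0 < 1 + Real.exp (-(v + θ.b₂)) := by positivity
  have key : (1 + Real.exp (-(u + θ.b₁))) * (1 + Real.exp (-(v + θ.b₂))) *
      (θ.a₁ * Real.sigmoid (u + θ.b₁) + θ.a₂ * Real.sigmoid (v + θ.b₂) + θ.a₀) =
      G (θ.a₀ + θ.a₁ + θ.a₂) ((θ.a₀ + θ.a₂) * Real.exp (-θ.b₁))
      ((θ.a₀ + θ.a₁) * Real.exp (-θ.b₂)) (θ.a₀ * (Real.exp (-θ.b₁) * Real.exp (-θ.b₂)))
      (Real.exp (-u)) (Real.exp (-v)) := by
    unfold Real.sigmoid G
    have q1 : (1 + Real.exp (-(u + θ.b₁))) * (1 + Real.exp (-(u + θ.b₁)))⁻¹ = 1 :=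
      mul_inv_cancel₀ p1.ne'
    have q2 : (1 + Real.exp (-(v + θ.b₂))) * (1 + Real.exp (-(v + θ.b₂)))⁻¹ = 1 :=
      mul_inv_cancel₀ p2.ne'
    generalize (1 + Real.exp (-(u + θ.b₁)))⁻¹ = s1 at *
    generalize (1 + Real.exp (-(v + θ.b₂)))⁻¹ = s2 at *
    rw [e1] at *
    rw [e2] at *
    generalize Real.exp (-θ.b₁) = B1 at *
    generalize Real.exp (-θ.b₂) = B2 at *
    generalize Real.exp (-u) = U at *
    generalize Real.exp (-v) = W at *
    linear_combination (θ.a₁ * (1 + B2 * W)) * q1 + (θ.a₂ * (1 + B1 * U)) * q2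
  rw [← key]
  exact (mul_nonneg_iff_of_pos_left (mul_pos p1 p2)).symm

theorem sound (φ : List (NV × NV × NV)) (h : Loadable (red φ)) : NAE φ := by
  classical
  obtain ⟨hlen, θ, hθ⟩ := h
  set L := vars φ with hL
  set W₁ : ℕ → ℝ := fun n => if h : n < (red φ).1 then θ.w₁ ⟨n, h⟩ else 0 with hW₁
  set W₂ : ℕ → ℝ := fun n => if h : n < (red φ).1 then θ.w₂ ⟨n, h⟩ else 0 with hW₂
  set α := θ.a₀ + θ.a₁ + θ.a₂ with hα
  set β := (θ.a₀ + θ.a₂) * Real.exp (-θ.b₁) with hβ
  set γ := (θ.a₀ + θ.a₁) * Real.exp (-θ.b₂) with hγ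
  set δ := θ.a₀ * (Real.exp (-θ.b₁) * Real.exp (-θ.b₂)) with hδ
  let z : NV → Fin 6 → ℝ × ℝ := fun v q =>
    (Real.exp (-cq W₁ L v q), Real.exp (-cq W₂ L v q))
  have hlab : ∀ p ∈ (red φ).2,
      (p.2 = true ↔ 0 ≤ G α β γ δ (Real.exp (-ev W₁ 0 p.1)) (Real.exp (-ev W₂ 0 p.1))) := by
    intro p hp
    rw [← hθ p hp, output_iff, dot_eq_ev _ _ (hlen p hp), dot_eq_ev _ _ (hlen p hp)]
  have hprod : ∀ (ι : Type) (s : Finset ι) (f g : ι → ℝ),
      (∏ i ∈ s, ((Real.exp (-f i), Real.exp (-g i)) : ℝ × ℝ)) =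
        (Real.exp (-∑ i ∈ s, f i), Real.exp (-∑ i ∈ s, g i)) := by
    intro ι s f g
    refine Prod.ext ?_ ?_
    · rw [Prod.fst_prod, ← Finset.sum_neg_distrib, Real.exp_sum]
    · rw [Prod.snd_prod]
      show _ = Real.exp (-∑ i ∈ s, g i)
      rw [← Finset.sum_neg_distrib, Real.exp_sum]
  -- restrict the variables to those which occur
  let V := {v : NV // v ∈ L}
  let emb : V ↪ NV := Function.Embedding.subtype _
  let cl : Set (Finset V) := {s | ∃ t ∈ φ, s.map emb = {t.1, t.2.1, t.2.2}}
  have hmem1 : ∀ v ∈ L, ∀ g ∈ gadL, (pt L v g.1, g.2) ∈ (red φ).2 := by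
    intro v hv g hg
    unfold red
    rw [List.mem_append, List.mem_flatMap]
    exact Or.inl ⟨v, hv, List.mem_map.2 ⟨g, hg, rfl⟩⟩
  have hmem2 : ∀ t ∈ φ, (ptc L t (blk {0}), true) ∈ (red φ).2 ∧
      (ptc L t (blk {1}), true) ∈ (red φ).2 := by
    intro t ht
    constructor
    · unfold red
      rw [List.mem_append, List.mem_flatMap, List.mem_flatMap]
      exact Or.inr ⟨t, ht, by simp [hL]⟩
    · unfold red
      rw [List.mem_append, List.mem_flatMap, List.mem_flatMap]
      exact Or.inr ⟨t, ht, by simp [hL]⟩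
  have hLab : Lab (Dg α β γ δ) (fun (v : V) q => z v.1 q) cl := by
    refine ⟨fun v q => ⟨Real.exp_pos _, Real.exp_pos _⟩, ?_, ?_, ?_, ?_⟩
    · intro v s hs
      have hg : (blk s, decide (bal s)) ∈ gadL := by
        unfold gadL
        rw [List.mem_append, List.mem_map]
        refine Or.inl ⟨s, ?_, rfl⟩
        rw [List.mem_filter]
        exact ⟨Finset.mem_toList.2 (Finset.mem_univ _), decide_eq_true hs⟩
      have h1 := hlab _ (hmem1 v.1 v.2 _ hg)
      simp only [decide_eq_true_eq] at h1
      rw [ev_pt, ev_pt] at h1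
      unfold Dg
      simp only [z, hprod]
      exact h1.symm
    · intro v
      have hg : (blk {0, 1}, true) ∈ gadL := by
        unfold gadL
        rw [List.mem_append]
        exact Or.inr (List.mem_singleton.2 rfl)
      have h1 := (hlab _ (hmem1 v.1 v.2 _ hg)).1 rfl
      simp only at h1
      rw [ev_pt, ev_pt] at h1
      have h2 := hprod _ ({0, 1} : Finset (Fin 6)) (cq W₁ L v.1) (cq W₂ L v.1)
      rw [Finset.prod_pair (by decide)] at h2
      unfold Dg
      simp only [z]
      rw [h2]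
      exact h1
    · rintro s ⟨t, ht, hs⟩
      have h1 := (hlab _ (hmem2 t ht).1).1 rfl
      simp only at h1
      rw [ev_ptc, ev_ptc, ← hs, Finset.sum_map, Finset.sum_map] at h1
      unfold Dg
      simp only [z, hprod]
      exact h1
    · rintro s ⟨t, ht, hs⟩
      have h1 := (hlab _ (hmem2 t ht).2).1 rfl
      simp only at h1
      rw [ev_ptc, ev_ptc, ← hs, Finset.sum_map, Finset.sum_map] at h1
      unfold Dg
      simp only [z, hprod]
      exact h1
  obtain ⟨τ, hτ⟩ := col_general hLab ⟨Real.exp (-θ.b₁), Real.exp (-θ.b₂), Real.exp_pos _,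
    Real.exp_pos _, by rw [hα, hβ, hγ, hδ]; ring⟩
  refine ⟨fun v => if h : v ∈ L then τ ⟨v, h⟩ else false, fun t ht hcon => ?_⟩
  have m1 : t.1 ∈ L := List.mem_flatMap.2 ⟨t, ht, by simp⟩
  have m2 : t.2.1 ∈ L := List.mem_flatMap.2 ⟨t, ht, by simp⟩
  have m3 : t.2.2 ∈ L := List.mem_flatMap.2 ⟨t, ht, by simp⟩
  simp only [m1, m2, m3, dif_pos] at hcon
  have hs : (({⟨t.1, m1⟩, ⟨t.2.1, m2⟩, ⟨t.2.2, m3⟩} : Finset V)).map emb =
      {t.1, t.2.1, t.2.2} := by
    rw [Finset.map_insert, Finset.map_insert, Finset.map_singleton]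
    rfl
  obtain ⟨v, hv, w, hw, hvw⟩ := hτ _ ⟨t, ht, hs⟩ ⟨_, Finset.mem_insert_self _ _⟩
  simp only [Finset.mem_insert, Finset.mem_singleton] at hv hw
  apply hvw
  rcases hv with rfl | rfl | rfl <;> rcases hw with rfl | rfl | rfl <;>
    simp_all

/-! ### completeness -/

/-- the first coordinates of the inputs of a variable which is true -/
def colA : Fin 6 → ℤ := ![1, -3, 2, 2, -2, -2]

/-- the second coordinates of the inputs of a variable which is true -/
def colB : Fin 6 → ℤ := ![-3, 1, -2, -2, 2, 2]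

/-- the first coordinates -/
def des (b : Bool) (q : Fin 6) : ℤ := if b then colA q else colB q

set_option maxRecDepth 20000 in
theorem des_bal : ∀ s : Finset (Fin 6), sep s → bal s →
    ∑ q ∈ s, colA q ≤ 0 ∧ ∑ q ∈ s, colB q ≤ 0 := by
  decide

set_option maxRecDepth 20000 in
theorem des_unbal : ∀ s : Finset (Fin 6), sep s → ¬ bal s →
    1 ≤ ∑ q ∈ s, colA q ∨ 1 ≤ ∑ q ∈ s, colB q := by
  decide

theorem cf_struct (w : ℕ → ℝ) (L : List NV) (m : NV → Fin 6 → ℝ) (ω : NV → Fin 6 → ℝ) :
    ∀ n, (∀ (j : ℕ) (hj : j < L.length) (q : Fin 6), w (n + 66 * j + q) = ω L[j] q) →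
      cf w n L m = (L.map fun u => ∑ q : Fin 6, m u q * ω u q).sum := by
  induction L with
  | nil => intro n _; rfl
  | cons u L ih =>
    intro n hw
    rw [cf, List.map_cons, List.sum_cons, ih (n + 66) ?_]
    · congr 1
      apply Finset.sum_congr rfl
      intro q _
      have := hw 0 (by simp) q
      simp only [List.getElem_cons_zero, mul_zero, add_zero] at this
      rw [this]
    · intro j hj q
      have := hw (j + 1) (by simpa using hj) q
      simp only [List.getElem_cons_succ] at this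
      rw [← this]
      congr 1
      ring

/-- the weights for given desired values at the unit vectors -/
noncomputable def wt (L : List NV) (d : NV → Fin 6 → ℤ) (n : ℕ) : ℝ :=
  if h : n / 66 < L.length ∧ n % 66 < 6 then
    (d L[n / 66] ⟨n % 66, h.2⟩ : ℝ) / (L.count L[n / 66] : ℝ)
  else 0

theorem cq_wt (L : List NV) (d : NV → Fin 6 → ℤ) {v : NV} (hv : v ∈ L) (q : Fin 6) :
    cq (wt L d) L v q = d v q := by
  unfold cq
  rw [cf_struct (wt L d) L _ (fun u q => (d u q : ℝ) / (L.count u : ℝ)) 0 ?_]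
  · rw [Finset.sum_list_map_count, Finset.sum_eq_single v]
    · rw [Finset.sum_eq_single q]
      · have : (L.count v : ℝ) ≠ 0 := by
          have := List.count_pos_iff.2 hv
          positivity
        simp only [and_self, if_true, one_mul, nsmul_eq_mul]
        have e : @List.count NV instBEqOfDecidableEq v L = L.count v := by
          have hi : (instBEqOfDecidableEq : BEq NV) = instBEqProd := by
            apply lawful_beq_subsingleton
          rw [hi]
        rw [e]
        field_simp
      · intro q' _ hq'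
        simp [hq']
      · intro h
        exact absurd (Finset.mem_univ _) h
    · intro u _ hu
      simp [hu]
    · intro h
      exact absurd (List.mem_toFinset.2 hv) h
  · intro j hj q
    have h1 : (0 + 66 * j + (q : ℕ)) / 66 = j := by omega
    have h2 : (0 + 66 * j + (q : ℕ)) % 66 = q := by omega
    unfold wt
    rw [dif_pos ⟨by rw [h1]; exact hj, by rw [h2]; exact q.isLt⟩]
    simp only [h1, h2]

theorem sigmoid_two : (3 / 4 : ℝ) ≤ Real.sigmoid 2 := by
  unfold Real.sigmoid
  have h1 : (3 : ℝ) ≤ Real.exp 2 := by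
    have := Real.add_one_le_exp (2 : ℝ)
    linarith
  have h2 : Real.exp (-2) ≤ 1 / 3 := by
    rw [Real.exp_neg, ← one_div]
    exact one_div_le_one_div_of_le (by norm_num) h1
  rw [← one_div, le_div_iff₀ (by positivity)]
  linarith

theorem sigmoid_zero_half : Real.sigmoid 0 = 1 / 2 := by
  unfold Real.sigmoid
  norm_num

theorem sum_nonpos {T : Finset NV} (hT : T.card ≤ 3) (g : NV → ℤ) (h1 : ∀ v, g v ≤ 1)
    (h2 : ∃ w ∈ T, g w ≤ -3) : ∑ v ∈ T, g v ≤ 0 := by
  classical
  obtain ⟨w, hw, hgw⟩ := h2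
  rw [← Finset.add_sum_erase T g hw]
  have h3 : ∑ v ∈ T.erase w, g v ≤ ∑ v ∈ T.erase w, 1 := Finset.sum_le_sum fun v _ => h1 v
  rw [Finset.sum_const, Finset.card_erase_of_mem hw, nsmul_eq_mul, mul_one] at h3
  have h4 : 0 < T.card := Finset.card_pos.2 ⟨w, hw⟩
  push_cast [Nat.cast_sub (show 1 ≤ T.card from h4)] at h3
  have h5 : (T.card : ℤ) ≤ 3 := by exact_mod_cast hT
  linarith

theorem clause_nonpos (τ : NV → Bool) (t : NV × NV × NV)
    (h : ¬ (τ t.1 = τ t.2.1 ∧ τ t.2.1 = τ t.2.2)) (q : Fin 6) (hq : q = 0 ∨ q = 1) :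
    ∑ v ∈ ({t.1, t.2.1, t.2.2} : Finset NV), des (τ v) q ≤ 0 := by
  classical
  refine sum_nonpos Finset.card_le_three _ (fun v => ?_) ?_
  · have : ∀ b : Bool, ∀ q : Fin 6, (q = 0 ∨ q = 1) → des b q ≤ 1 := by decide
    exact this _ q hq
  · have h2 : ∀ q : Fin 6, (q = 0 ∨ q = 1) → ∃ b : Bool, des b q ≤ -3 := by decide
    obtain ⟨b, hb⟩ := h2 q hq
    have h3 : τ t.1 = b ∨ τ t.2.1 = b ∨ τ t.2.2 = b := by
      cases h1 : τ t.1 <;> cases h2 : τ t.2.1 <;> cases h3 : τ t.2.2 <;> cases b <;> simp_all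
    rcases h3 with h3 | h3 | h3
    · exact ⟨t.1, by simp, by rw [h3]; exact hb⟩
    · exact ⟨t.2.1, by simp, by rw [h3]; exact hb⟩
    · exact ⟨t.2.2, by simp, by rw [h3]; exact hb⟩

theorem complete (φ : List (NV × NV × NV)) (h : NAE φ) : Loadable (red φ) := by
  classical
  obtain ⟨τ, hτ⟩ := h
  refine ⟨red_wf φ, ?_⟩
  set L := vars φ with hL
  have hk : (red φ).1 = L.length * 66 := rfl
  set W₁ : ℕ → ℝ := fun n => -2 * wt L (fun v q => des (τ v) q) n with hW₁
  set W₂ : ℕ → ℝ := fun n => -2 * wt L (fun v q => des (!(τ v)) q) n with hW₂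
  refine ⟨⟨fun i => W₁ i, fun i => W₂ i, 2, 2, -3 / 2, 1, 1⟩, ?_⟩
  -- evaluation
  have evc : ∀ (w : ℕ → ℝ) (x : List Bool) (hx : x.length = (red φ).1),
      dot (fun i : Fin (red φ).1 => w i) (fun i => x.getD i false) = ev w 0 x := by
    intro w x hx
    rw [dot_eq_ev _ _ hx, ev_eq_sum, ev_eq_sum]
    apply Finset.sum_congr rfl
    intro i hi
    rw [Finset.mem_range, hx] at hi
    simp [hi]
  have evs : ∀ (c : ℝ) (w : ℕ → ℝ) (x : List Bool) (n : ℕ),
      ev (fun n => c * w n) n x = c * ev w n x := by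
    intro c w x n
    rw [ev_eq_sum, ev_eq_sum, Finset.mul_sum]
    apply Finset.sum_congr rfl
    intro i _
    ring
  -- the two kinds of points
  have hpos : ∀ (x : List Bool), x.length = (red φ).1 →
      ev (wt L (fun v q => des (τ v) q)) 0 x ≤ 0 →
      ev (wt L (fun v q => des (!(τ v)) q)) 0 x ≤ 0 →
      (Params.output ⟨fun i => W₁ i, fun i => W₂ i, 2, 2, -3 / 2, 1, 1⟩
        (fun i : Fin (red φ).1 => x.getD i false)) = true := by
    intro x hx h1 h2
    unfold Params.output
    simp only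
    rw [heaviside_true, evc _ _ hx, evc _ _ hx, hW₁, hW₂, evs, evs]
    have a1 : Real.sigmoid 2 ≤
        Real.sigmoid (-2 * ev (wt L (fun v q => des (τ v) q)) 0 x + 2) :=
      Real.sigmoid_le (by linarith)
    have a2 : Real.sigmoid 2 ≤
        Real.sigmoid (-2 * ev (wt L (fun v q => des (!(τ v)) q)) 0 x + 2) :=
      Real.sigmoid_le (by linarith)
    have a3 := sigmoid_two
    linarith
  have hneg : ∀ (x : List Bool), x.length = (red φ).1 →
      (1 ≤ ev (wt L (fun v q => des (τ v) q)) 0 x ∨
        1 ≤ ev (wt L (fun v q => des (!(τ v)) q)) 0 x) →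
      (Params.output ⟨fun i => W₁ i, fun i => W₂ i, 2, 2, -3 / 2, 1, 1⟩
        (fun i : Fin (red φ).1 => x.getD i false)) = false := by
    intro x hx h1
    unfold Params.output
    simp only
    rw [heaviside_false, evc _ _ hx, evc _ _ hx, hW₁, hW₂, evs, evs]
    have a1 := Real.sigmoid_lt_one (-2 * ev (wt L (fun v q => des (τ v) q)) 0 x + 2)
    have a2 := Real.sigmoid_lt_one (-2 * ev (wt L (fun v q => des (!(τ v)) q)) 0 x + 2)
    have a3 := sigmoid_zero_half
    rcases h1 with h1 | h1
    · have := Real.sigmoid_le (a := -2 * ev (wt L (fun v q => des (τ v) q)) 0 x + 2) (b := 0)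
        (by linarith)
      linarith
    · have := Real.sigmoid_le (a := -2 * ev (wt L (fun v q => des (!(τ v)) q)) 0 x + 2) (b := 0)
        (by linarith)
      linarith
  have hev : ∀ v ∈ L, ∀ s : Finset (Fin 6),
      ev (wt L (fun v q => des (τ v) q)) 0 (pt L v (blk s)) = ((∑ q ∈ s, des (τ v) q : ℤ) : ℝ) ∧
      ev (wt L (fun v q => des (!(τ v)) q)) 0 (pt L v (blk s)) =
        ((∑ q ∈ s, des (!(τ v)) q : ℤ) : ℝ) := by
    intro v hv s
    rw [ev_pt, ev_pt]
    push_cast
    exact ⟨Finset.sum_congr rfl fun q _ => cq_wt L _ hv q,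
      Finset.sum_congr rfl fun q _ => cq_wt L _ hv q⟩
  intro p hp
  have hpl := red_wf φ p hp
  unfold red at hp
  simp only [List.mem_append, List.mem_flatMap, List.mem_map, List.mem_cons, List.not_mem_nil,
    or_false] at hp
  rcases hp with ⟨v, hv, g, hg, rfl⟩ | ⟨t, ht, hpt⟩
  · unfold gadL at hg
    rw [List.mem_append, List.mem_map] at hg
    rcases hg with ⟨s, hs, rfl⟩ | hg
    · have hsep : sep s := by
        rw [List.mem_filter] at hs
        exact of_decide_eq_true hs.2
      obtain ⟨e1, e2⟩ := hev v hv s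
      by_cases hb : bal s
      · obtain ⟨f1, f2⟩ := des_bal s hsep hb
        simp only [hb, decide_true]
        refine hpos _ hpl ?_ ?_
        · rw [e1]
          cases τ v <;> simp only [des] <;> exact_mod_cast (by assumption)
        · rw [e2]
          cases τ v <;> simp only [des] <;> exact_mod_cast (by assumption)
      · have f := des_unbal s hsep hb
        simp only [hb, decide_false]
        refine hneg _ hpl ?_
        rw [e1, e2]
        cases τ v
        · simp only [des, Bool.not_false]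
          rcases f with f | f
          · right; exact_mod_cast f
          · left; exact_mod_cast f
        · simp only [des, Bool.not_true]
          rcases f with f | f
          · left; exact_mod_cast f
          · right; exact_mod_cast f
    · rw [List.mem_singleton] at hg
      subst hg
      obtain ⟨e1, e2⟩ := hev v hv {0, 1}
      refine hpos _ hpl ?_ ?_
      · rw [e1]
        have : ∀ b : Bool, ∑ q ∈ ({0, 1} : Finset (Fin 6)), des b q ≤ 0 := by decide
        exact_mod_cast this (τ v)
      · rw [e2]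
        have : ∀ b : Bool, ∑ q ∈ ({0, 1} : Finset (Fin 6)), des b q ≤ 0 := by decide
        exact_mod_cast this (!(τ v))
  · have m : ∀ v ∈ ({t.1, t.2.1, t.2.2} : Finset NV), v ∈ L := by
      intro v hv
      simp only [Finset.mem_insert, Finset.mem_singleton] at hv
      refine List.mem_flatMap.2 ⟨t, ht, ?_⟩
      simpa using hv
    have hnae := hτ t ht
    have hnae' : ¬ ((!(τ t.1)) = (!(τ t.2.1)) ∧ (!(τ t.2.1)) = (!(τ t.2.2))) := by
      simpa using hnae
    have hc : ∀ q : Fin 6, (q = 0 ∨ q = 1) →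
        ev (wt L (fun v q => des (τ v) q)) 0 (ptc L t (blk {q})) ≤ 0 ∧
        ev (wt L (fun v q => des (!(τ v)) q)) 0 (ptc L t (blk {q})) ≤ 0 := by
      intro q hq
      rw [ev_ptc, ev_ptc, Finset.sum_congr rfl fun v hv => cq_wt L _ (m v hv) q,
        Finset.sum_congr rfl fun v hv => cq_wt L _ (m v hv) q]
      exact ⟨by exact_mod_cast clause_nonpos τ t hnae q hq,
        by exact_mod_cast clause_nonpos (fun v => !(τ v)) t hnae' q hq⟩
    rcases hpt with rfl | rfl
    · exact hpos _ hpl (hc 0 (Or.inl rfl)).1 (hc 0 (Or.inl rfl)).2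
    · exact hpos _ hpl (hc 1 (Or.inr rfl)).1 (hc 1 (Or.inr rfl)).2

theorem red_correct (φ : List (NV × NV × NV)) : NAE φ ↔ Loadable (red φ) :=
  ⟨complete φ, sound φ⟩

/-- hardness, all instances produced have at most `k` points -/
theorem hardPr_loadable : HardPr Few Loadable :=
  hardI_NAE.toHardPr.trans red_poly (fun φ _ => red_few φ) fun φ _ => red_correct φ

theorem hard_loadable : NPHardP Loadable := hardPr_loadable.toHardI.toNPHardP

theorem hard_few : NPHardP (fun I => Few I ∧ Loadable I) := by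
  refine HardI.toNPHardP ?_
  intro L hL
  obtain ⟨g, hg, hgp, hgL⟩ := hardPr_loadable L hL
  exact ⟨g, hg, fun x => (hgL x).trans ⟨fun h => ⟨hgp x, h⟩, fun h => h.2⟩⟩

end Pool.Agent.W945.Sig
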